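import Mathlib

set_option autoImplicit false

/-!
# Shortest closed walks of nonpositive weight

`exists_perm`: if a relation on a finite set with integral weights has a closed walk of weight at most
`0`, then there is a nonempty set `S` of weight at most `0` with exactly one permutation along the
relation.
-/

namespace Pool.Agent.Helper78K9.GO3

open Finset

section cycle
variable {E : Type} (R : E → E → Prop) (w : E → ℤ)

/-- `c` is a closed walk of length `m` and weight at most `0`. -/
def CW (m : ℕ) (c : ℕ → E) : Prop :=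
  0 < m ∧ (∀ i, R (c i) (c (i + 1))) ∧ (∀ i, c (i + m) = c i) ∧ ∑ i ∈ range m, w (c i) ≤ 0

/-- the partial sums -/
def PS (c : ℕ → E) (k : ℕ) : ℤ := ∑ i ∈ range k, w (c i)

variable {R w}

/-- Short cuts: a segment of the walk and one more arc. -/
lemma short {m : ℕ} {c : ℕ → E} (hc : CW R w m c) (i l : ℕ) (hl : 0 < l)
    (hb : R (c (i + (l - 1))) (c i)) (hw : PS w c (i + l) - PS w c i ≤ 0) :
    ∃ c', CW R w l c' := by
  refine ⟨fun k => c (i + k % l), hl, fun k => ?_, fun k => ?_, ?_⟩
  · simp only
    by_cases h : k % l + 1 < l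
    · have h1 : (k + 1) % l = k % l + 1 := by
        rw [Nat.add_mod, Nat.mod_eq_of_lt (show 1 < l by omega), Nat.mod_eq_of_lt h]
      rw [h1]
      exact hc.2.1 _
    · have h2 : k % l < l := Nat.mod_lt _ hl
      have h3 : k % l = l - 1 := by omega
      have h1 : (k + 1) % l = 0 := by
        have h4 : k + 1 = l * (k / l) + l := by
          have := Nat.div_add_mod k l
          omega
        rw [h4]
        simp
      rw [h1, h3, add_zero]
      exact hb
  · simp only
    rw [Nat.add_mod_right]
  · have h1 : ∑ k ∈ range l, w (c (i + k % l)) = ∑ k ∈ range l, w (c (i + k)) := by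
      refine Finset.sum_congr rfl fun k hk => ?_
      rw [Nat.mod_eq_of_lt (Finset.mem_range.1 hk)]
    rw [h1]
    have h2 : PS w c (i + l) = PS w c i + ∑ k ∈ range l, w (c (i + k)) := by
      unfold PS
      rw [Finset.sum_range_add]
    rw [h2] at hw
    linarith

lemma PS_add {m : ℕ} {c : ℕ → E} (hp : ∀ i, c (i + m) = c i) (k : ℕ) :
    PS w c (k + m) = PS w c k + PS w c m := by
  induction k with
  | zero => simp [PS]
  | succ k ih =>
    have h1 : k + 1 + m = (k + m) + 1 := by ring
    rw [h1]
    unfold PS at *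
    rw [Finset.sum_range_succ, Finset.sum_range_succ, ih, hp]
    ring

variable [Finite E]

theorem exists_perm {m : ℕ} {c : ℕ → E} (hc : CW R w m c) :
    ∃ (S : Finset E) (σ : Equiv.Perm E), S.Nonempty ∧ ∑ s ∈ S, w s ≤ 0 ∧ (∀ x, x ∉ S → σ x = x) ∧
      (∀ x ∈ S, R x (σ x)) ∧
      ∀ τ : Equiv.Perm E, (∀ x, x ∉ S → τ x = x) → (∀ x ∈ S, R x (τ x)) → τ = σ := by
  classical
  have := Fintype.ofFinite E
  -- a shortest closed walk
  have hex : ∃ m, ∃ c, CW R w m c := ⟨m, c, hc⟩
  obtain ⟨c, hc⟩ := Nat.find_spec hex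
  have hmin : ∀ l, l < Nat.find hex → ¬ ∃ c, CW R w l c := fun l hl => Nat.find_min hex hl
  set m := Nat.find hex with hm
  clear_value m
  obtain ⟨hm0, hR, hp, hw⟩ := id hc
  have hW : PS w c m ≤ 0 := hw
  have hpos : ∀ i l, 0 < l → l < m → R (c (i + (l - 1))) (c i) →
      1 ≤ PS w c (i + l) - PS w c i := by
    intro i l hl hlm hb
    by_contra h
    exact hmin l hlm (short hc i l hl hb (by omega))
  have hmod : ∀ k, c (k % m) = c k := fun k => Function.Periodic.map_mod_nat (f := c) hp k
  -- injectivity
  have hinj : ∀ i j, i < j → j < i + m → c i ≠ c j := by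
    intro i j hij hjm he
    have h1 := hpos i (j - i) (by omega) (by omega) (by
      have h2 := hR (i + (j - i - 1))
      have h3 : i + (j - i - 1) + 1 = j := by omega
      rw [h3, ← he] at h2
      exact h2)
    have h2 := hpos j (i + m - j) (by omega) (by omega) (by
      have h2 := hR (j + (i + m - j - 1))
      have h3 : j + (i + m - j - 1) + 1 = i + m := by omega
      rw [h3, hp, he] at h2
      exact h2)
    have h3 : i + (j - i) = j := by omega
    have h4 : j + (i + m - j) = i + m := by omega
    rw [h3] at h1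
    rw [h4, PS_add hp] at h2
    linarith
  have hinj' : ∀ k k', c k = c k' → k % m = k' % m := by
    intro k k' h
    rw [← hmod k, ← hmod k'] at h
    have h1 := Nat.mod_lt k hm0
    have h2 := Nat.mod_lt k' hm0
    rcases lt_trichotomy (k % m) (k' % m) with h3 | h3 | h3
    · exact absurd h (hinj _ _ h3 (by omega))
    · exact h3
    · exact absurd h.symm (hinj _ _ h3 (by omega))
  have hsucc : ∀ k k', c k = c k' → c (k + 1) = c (k' + 1) := by
    intro k k' h
    have h1 := hinj' k k' h
    rw [← hmod (k + 1), ← hmod (k' + 1), Nat.add_mod, h1, ← Nat.add_mod]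
  have hpred : ∀ k k', c (k + 1) = c (k' + 1) → c k = c k' := by
    intro k k' h
    have h1 : k + 1 ≡ k' + 1 [MOD m] := hinj' _ _ h
    have h2 : k ≡ k' [MOD m] := Nat.ModEq.add_right_cancel' 1 h1
    have h3 : k % m = k' % m := h2
    rw [← hmod k, ← hmod k', h3]
  -- the permutation
  let φ : E → E := fun x => if h : ∃ k, c k = x then c (h.choose + 1) else x
  have hφ : ∀ k, φ (c k) = c (k + 1) := by
    intro k
    have h : ∃ k', c k' = c k := ⟨k, rfl⟩
    simp only [φ]
    rw [dif_pos h]
    exact hsucc _ _ h.choose_spec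
  have hφ' : ∀ x, (¬ ∃ k, c k = x) → φ x = x := by
    intro x h
    simp only [φ]
    rw [dif_neg h]
  have hφi : Function.Injective φ := by
    intro x y h
    by_cases hx : ∃ k, c k = x
    · by_cases hy : ∃ k, c k = y
      · obtain ⟨k, rfl⟩ := hx
        obtain ⟨k', rfl⟩ := hy
        rw [hφ, hφ] at h
        exact hpred _ _ h
      · obtain ⟨k, rfl⟩ := hx
        rw [hφ, hφ' y hy] at h
        exact absurd ⟨_, h⟩ hy
    · by_cases hy : ∃ k, c k = y
      · obtain ⟨k, rfl⟩ := hy
        rw [hφ, hφ' x hx] at h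
        exact absurd ⟨_, h.symm⟩ hx
      · rwa [hφ' x hx, hφ' y hy] at h
  let σ : Equiv.Perm E := Equiv.ofBijective φ (Finite.injective_iff_bijective.1 hφi)
  have hσ : ∀ k, σ (c k) = c (k + 1) := hφ
  let S : Finset E := (range m).image c
  have hS : ∀ x, x ∈ S ↔ ∃ k, c k = x := by
    intro x
    simp only [S, Finset.mem_image, Finset.mem_range]
    constructor
    · rintro ⟨k, -, h⟩
      exact ⟨k, h⟩
    · rintro ⟨k, h⟩
      exact ⟨k % m, Nat.mod_lt _ hm0, by rw [hmod, h]⟩
  have hσ' : ∀ x, x ∉ S → σ x = x := fun x hx => hφ' x (fun h => hx ((hS x).2 h))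
  refine ⟨S, σ, ⟨c 0, (hS _).2 ⟨0, rfl⟩⟩, ?_, hσ', ?_, ?_⟩
  · rw [Finset.sum_image]
    · exact hw
    · intro i hi j hj h
      have h1 := hinj' i j h
      rw [Nat.mod_eq_of_lt (Finset.mem_range.1 hi), Nat.mod_eq_of_lt (Finset.mem_range.1 hj)] at h1
      exact h1
  · intro x hx
    obtain ⟨k, rfl⟩ := (hS x).1 hx
    rw [hσ]
    exact hR k
  · intro τ hτ hτR
    -- the potential
    let q : ℕ → ℤ := fun k => m * PS w c k - k * PS w c m
    have hq : ∀ k, q (k + m) = q k := by
      intro k
      simp only [q]
      rw [PS_add hp]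
      push_cast
      ring
    have hqm : ∀ k, q (k % m) = q k := fun k => Function.Periodic.map_mod_nat (f := q) hq k
    let p : E → ℤ := fun x => if h : ∃ k, c k = x then q h.choose else 0
    have hpc : ∀ k, p (c k) = q k := by
      intro k
      have h : ∃ k', c k' = c k := ⟨k, rfl⟩
      simp only [p]
      rw [dif_pos h, ← hqm, hinj' _ _ h.choose_spec, hqm]
    have hkey : ∀ x, p (τ x) ≤ p (σ x) ∧ (τ x ≠ σ x → p (τ x) < p (σ x)) := by
      intro x
      by_cases hx : x ∈ S
      · have hx' : ∃ j, c j = τ x := by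
          rw [← hS]
          by_contra h
          have h1 := hτ _ h
          have h2 := τ.injective h1
          rw [h2] at h
          exact h hx
        obtain ⟨k, rfl⟩ := (hS x).1 hx
        obtain ⟨j', hj'⟩ := hx'
        -- the index in the next period
        obtain ⟨r, hr, hrj⟩ : ∃ r, r < m ∧ c (k + 1 + r) = τ (c k) := by
          refine ⟨(j' + (m - 1) * (k + 1)) % m, Nat.mod_lt _ hm0, ?_⟩
          rw [← hj', ← hmod, ← hmod j']
          congr 1
          rw [Nat.add_mod_mod]
          have h1 : k + 1 + (j' + (m - 1) * (k + 1)) = j' + m * (k + 1) := by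
            obtain ⟨m', rfl⟩ : ∃ m', m = m' + 1 := ⟨m - 1, by omega⟩
            simp only [Nat.add_sub_cancel]
            ring
          rw [h1, Nat.add_mul_mod_self_left]
        rcases Nat.eq_zero_or_pos r with h0 | h0
        · rw [h0, add_zero, ← hσ] at hrj
          rw [hrj]
          exact ⟨le_refl _, fun h => absurd rfl h⟩
        · have h1 : p (τ (c k)) < p (σ (c k)) := by
            rw [← hrj, hσ, hpc, hpc]
            have h2 := hpos (k + 1 + r) (m - r) (by omega) (by omega) (by
              have h3 : k + 1 + r + (m - r - 1) = k + m := by omega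
              rw [h3, hp, hrj]
              exact hτR _ hx)
            have h3 : k + 1 + r + (m - r) = (k + 1) + m := by omega
            rw [h3, PS_add hp] at h2
            simp only [q]
            push_cast
            have h4 : (0 : ℤ) < m := by exact_mod_cast hm0
            have h5 : (r : ℤ) ≤ m := by exact_mod_cast hr.le
            nlinarith [mul_nonneg (sub_nonneg.2 h5) (neg_nonneg.2 hW)]
          exact ⟨h1.le, fun _ => h1⟩
      · rw [hτ x hx, hσ' x hx]
        exact ⟨le_refl _, fun h => absurd rfl h⟩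
    have hsum : ∑ x, p (τ x) = ∑ x, p (σ x) := by
      rw [Equiv.sum_comp τ p, Equiv.sum_comp σ p]
    have hall := (Finset.sum_eq_sum_iff_of_le fun x _ => (hkey x).1).1 hsum
    ext1 x
    by_contra hne
    have h1 := (hkey x).2 hne
    have h2 := hall x (Finset.mem_univ _)
    omega

end cycle

end Pool.Agent.Helper78K9.GO3
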