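import Pool.Agent.Helper78K9.GO2.Trop
import Pool.Agent.Helper78K9.GO3.Cycle

set_option autoImplicit false

/-!
# Lowest terms of solutions of linear equations over a group ring
-/

namespace Pool.Agent.Helper78K9.GO3

open Function
open Pool.Agent.R655.LI
open Pool.Agent.Helper78K9.GO

section low
variable {G : Type} [Group G] (h : G →* Multiplicative ℤ)

lemma mul_coeff_ne {u F : MonoidAlgebra ℤ G} {g : G} (hg : (u * F).coeff g ≠ 0) :
    ∃ g', u.coeff g' ≠ 0 ∧ F.coeff (g'⁻¹ * g) ≠ 0 := by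
  classical
  by_contra hne
  push Not at hne
  apply hg
  rw [MonoidAlgebra.coeff_mul_apply_left, Finsupp.sum]
  refine Finset.sum_eq_zero fun g' hg' => ?_
  rw [hne g' (Finsupp.mem_support_iff.1 hg'), mul_zero]

/-- the lowest coefficient of a product -/
lemma coeff_pivot (u α : MonoidAlgebra ℤ G) (y : G) (s : ℤ)
    (hα : ∀ g, (α - MonoidAlgebra.single y s).coeff g ≠ 0 → (h y).toAdd < (h g).toAdd) (g : G)
    (hu : ∀ g', u.coeff g' ≠ 0 → (h g).toAdd ≤ (h g').toAdd) :
    (u * α).coeff (g * y) = u.coeff g * s := by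
  classical
  have h1 : α = MonoidAlgebra.single y s + (α - MonoidAlgebra.single y s) := by abel
  rw [h1, mul_add, MonoidAlgebra.coeff_add, Finsupp.add_apply, MonoidAlgebra.coeff_mul_single_mul]
  have h2 : (u * (α - MonoidAlgebra.single y s)).coeff (g * y) = 0 := by
    by_contra h3
    obtain ⟨g', h4, h5⟩ := mul_coeff_ne h3
    have h6 := hα _ h5
    have h7 := hu _ h4
    rw [h.map_mul, h.map_mul, h.map_inv, toAdd_mul, toAdd_mul, toAdd_inv] at h6
    omega
  rw [h2, add_zero]

variable {J : Type} (N : J → J → ℤ) (α β : J → MonoidAlgebra ℤ G) (y : J → G) (s : J → ℤ)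
  (Q : J → ℤ)

/-- A nontrivial solution leads to a closed walk of nonpositive weight. -/
theorem core (hs : ∀ j, s j ≠ 0)
    (hα : ∀ j g, (α j - MonoidAlgebra.single (y j) (s j)).coeff g ≠ 0 →
      (h (y j)).toAdd < (h g).toAdd)
    (hβ : ∀ j g, (β j).coeff g ≠ 0 → Q j ≤ (h g).toAdd)
    (z : J →₀ MonoidAlgebra ℤ G)
    (hz : ∀ j₀, z j₀ * α j₀ + ∑ j ∈ z.support, N j j₀ • (z j * β j) = 0) (hne : z ≠ 0) :
    ∃ (m : ℕ) (c : ℕ → J),
      CW (fun x x' => N x' x ≠ 0) (fun x => Q x - (h (y x)).toAdd) m c := by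
  classical
  -- the lowest terms
  have hg : ∀ j : z.support, ∃ g, (z j).coeff g ≠ 0 ∧
      ∀ g', (z j).coeff g' ≠ 0 → (h g).toAdd ≤ (h g').toAdd := by
    intro j
    have h1 : ((z j).coeff.support).Nonempty := by
      rw [Finsupp.support_nonempty_iff]
      intro h0
      exact (Finsupp.mem_support_iff.1 j.2) (MonoidAlgebra.coeff_eq_zero.1 h0)
    obtain ⟨g, h2, h3⟩ := Finset.exists_min_image _ (fun g => (h g).toAdd) h1
    exact ⟨g, Finsupp.mem_support_iff.1 h2, fun g' h4 => h3 g' (Finsupp.mem_support_iff.2 h4)⟩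
  choose g hg0 hgm using hg
  -- the next row
  have hstep : ∀ j₀ : z.support, ∃ j : z.support, N j j₀ ≠ 0 ∧
      (h (g j)).toAdd + Q j ≤ (h (g j₀)).toAdd + (h (y j₀)).toAdd := by
    intro j₀
    have h1 := congrArg (fun x : MonoidAlgebra ℤ G => x.coeff (g j₀ * y j₀)) (hz j₀)
    simp only [MonoidAlgebra.coeff_zero, Finsupp.coe_zero, Pi.zero_apply] at h1
    rw [MonoidAlgebra.coeff_add, Finsupp.add_apply,
      coeff_pivot h _ _ _ _ (hα j₀) _ (hgm j₀), MonoidAlgebra.coeff_sum,
      Finsupp.finsetSum_apply] at h1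
    have h2 : ∑ j ∈ z.support, (N j j₀ • (z j * β j)).coeff (g j₀ * y j₀) ≠ 0 := by
      intro h3
      rw [h3, add_zero] at h1
      exact mul_ne_zero (hg0 j₀) (hs j₀) h1
    obtain ⟨j, hj, hj1⟩ := Finset.exists_ne_zero_of_sum_ne_zero h2
    refine ⟨⟨j, hj⟩, ?_, ?_⟩
    · intro h3
      apply hj1
      simp only at h3
      rw [h3, zero_smul]
      rfl
    · have h3 : (z j * β j).coeff (g j₀ * y j₀) ≠ 0 := by
        intro h4
        apply hj1
        rw [MonoidAlgebra.coeff_smul, Finsupp.smul_apply, h4, smul_zero]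
      obtain ⟨g', h4, h5⟩ := mul_coeff_ne h3
      have h6 := hgm ⟨j, hj⟩ g' h4
      have h7 := hβ _ _ h5
      rw [h.map_mul, h.map_mul, h.map_inv, toAdd_mul, toAdd_mul, toAdd_inv] at h7
      simp only at h6 ⊢
      omega
  choose f hf hfw using hstep
  obtain ⟨j₀, hj₀⟩ := Finsupp.support_nonempty_iff.2 hne
  -- a periodic point
  obtain ⟨a, b, hab, he⟩ : ∃ a b : ℕ, a < b ∧ f^[a] ⟨j₀, hj₀⟩ = f^[b] ⟨j₀, hj₀⟩ := by
    obtain ⟨a, b, hab, he⟩ := Finite.exists_ne_map_eq_of_infinite
      (fun k : ℕ => f^[k] (⟨j₀, hj₀⟩ : z.support))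
    rcases lt_or_gt_of_ne hab with h1 | h1
    · exact ⟨a, b, h1, he⟩
    · exact ⟨b, a, h1, he.symm⟩
  let c : ℕ → z.support := fun k => f^[k] (f^[a] ⟨j₀, hj₀⟩)
  have hc : ∀ k, c (k + 1) = f (c k) := fun k => Function.iterate_succ_apply' f k _
  have hp : ∀ k, c (k + (b - a)) = c k := by
    intro k
    simp only [c]
    rw [Function.iterate_add_apply, ← Function.iterate_add_apply f (b - a) a,
      Nat.sub_add_cancel hab.le, he]
  refine ⟨b - a, fun k => (c k : J), by omega, fun k => ?_, fun k => ?_, ?_⟩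
  · simp only
    rw [hc]
    exact hf _
  · simp only
    rw [hp]
  · have h1 : ∀ k, (h (g (c (k + 1)))).toAdd + Q (c (k + 1)) ≤
        (h (g (c k))).toAdd + (h (y (c k))).toAdd := by
      intro k
      rw [hc]
      exact hfw _
    have h2 : ∑ k ∈ Finset.range (b - a), ((h (g (c (k + 1)))).toAdd + Q (c (k + 1))) ≤
        ∑ k ∈ Finset.range (b - a), ((h (g (c k))).toAdd + (h (y (c k))).toAdd) :=
      Finset.sum_le_sum fun k _ => h1 k
    have hshift : ∀ F : z.support → ℤ, ∑ k ∈ Finset.range (b - a), F (c (k + 1)) =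
        ∑ k ∈ Finset.range (b - a), F (c k) := by
      intro F
      have h3 := Finset.sum_range_succ (fun k => F (c k)) (b - a)
      have h4 := Finset.sum_range_succ' (fun k => F (c k)) (b - a)
      have h5 : c (b - a) = c 0 := by
        have := hp 0
        rwa [zero_add] at this
      rw [h5] at h3
      linarith
    rw [hshift (fun x => (h (g x)).toAdd + Q x), Finset.sum_add_distrib,
      Finset.sum_add_distrib] at h2
    rw [Finset.sum_sub_distrib]
    linarith

end low

section crit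
variable (K : Cx) (a l b : K.R → K.V) (hr : ∀ j, K.r j = wirt (a j) (l j) (b j))

include hr in
/-- The equations for the coefficients of a cycle. -/
theorem star [Finite K.V] (z : K.R →₀ MonoidAlgebra ℤ K.Pi)
    (hz : Finsupp.linearCombination (MonoidAlgebra ℤ K.Pi) (fun j => fox K (K.r j)) z = 0)
    (F : K.V → ℤ) :
    ∑ j ∈ z.support, z j * ((F (a j) - F (l j)) • (og K (a j) - 1) -
      (F (b j) - F (l j)) • (og K (l j) * (og K (b j) - 1))) = 0 := by
  classical
  have := Fintype.ofFinite K.V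
  have h1 : ∀ v, ∑ j ∈ z.support, z j * fox K (K.r j) v = 0 := by
    intro v
    have h2 := congrFun hz v
    rw [Finsupp.linearCombination_apply, Finsupp.sum, Finset.sum_apply] at h2
    exact h2
  have h2 : ∑ v, (∑ j ∈ z.support, z j * fox K (K.r j) v) * (F v • (og K v - 1)) = 0 :=
    Finset.sum_eq_zero fun v _ => by rw [h1, zero_mul]
  simp only [Finset.sum_mul] at h2
  rw [Finset.sum_comm] at h2
  rw [← h2]
  refine Finset.sum_congr rfl fun j _ => ?_
  simp only [mul_assoc]
  rw [← Finset.mul_sum]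
  congr 1
  have h3 : ∀ (x : K.V) (X : K.V → MonoidAlgebra ℤ K.Pi), ∑ v, dl K x v * X v = X x := by
    intro x X
    unfold dl
    simp only [ite_mul, one_mul, zero_mul]
    rw [Finset.sum_ite_eq]
    simp
  simp only [fox_rel K a l b hr, sub_mul, add_mul, Finset.sum_sub_distrib, Finset.sum_add_distrib,
    mul_assoc]
  rw [← Finset.mul_sum, ← Finset.mul_sum, h3, h3, h3]
  have key : og K (a j) * og K (l j) = og K (l j) * og K (b j) := by
    unfold og
    rw [← map_mul, ← map_mul, rel_eq K a l b hr]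
  simp only [sub_smul, smul_sub, mul_sub, mul_smul_comm, mul_one, key]
  abel

end crit

end Pool.Agent.Helper78K9.GO3
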