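import Pool.Agent.Helper78K9.GO3.Alg

set_option autoImplicit false

/-!
# Closed walks of weight zero

`core2`: a nontrivial solution of the equations, in the case that no closed walk has negative weight
and the closed walks of weight zero can be continued in only one way, gives a closed walk of weight
zero whose product has finite order.
-/

namespace Pool.Agent.Helper78K9.GO3

open Function

section walks
variable {E : Type} {R : E → E → Prop} {w : E → ℤ}

/-- A segment of a walk, which closes up. -/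
lemma seg {c : ℕ → E} (n : ℕ) (hR : ∀ k, k < n + 1 → R (c k) (c (k + 1)))
    (hb : c (n + 1) = c 0) (hw : PS w c (n + 1) ≤ 0) :
    CW R w (n + 1) (fun k => c (k % (n + 1))) := by
  refine ⟨by omega, fun k => ?_, fun k => ?_, ?_⟩
  · simp only
    have h2 : k % (n + 1) < n + 1 := Nat.mod_lt _ (by omega)
    by_cases h : k % (n + 1) = n
    · have h1 : (k + 1) % (n + 1) = 0 := by
        have h4 : k + 1 = (n + 1) * (k / (n + 1)) + (n + 1) := by
          have := Nat.div_add_mod k (n + 1)
          omega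
        rw [h4]
        simp
      rw [h1, h, ← hb]
      exact hR n (by omega)
    · have h1 : (k + 1) % (n + 1) = k % (n + 1) + 1 := by
        rw [Nat.add_mod, Nat.mod_eq_of_lt (show 1 < n + 1 by omega), Nat.mod_eq_of_lt]
        omega
      rw [h1]
      exact hR _ h2
  · simp only
    rw [Nat.add_mod_right]
  · refine le_trans (le_of_eq ?_) hw
    unfold PS
    refine Finset.sum_congr rfl fun k hk => ?_
    simp only
    rw [Nat.mod_eq_of_lt (Finset.mem_range.1 hk)]

/-- paths as sequences -/
lemma path_seq {r : E → E → Prop} {a b : E} (h : Relation.ReflTransGen r a b) :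
    ∃ (n : ℕ) (c : ℕ → E), c 0 = a ∧ c n = b ∧ ∀ k, k < n → r (c k) (c (k + 1)) := by
  induction h with
  | refl => exact ⟨0, fun _ => a, rfl, rfl, fun k hk => absurd hk (by omega)⟩
  | @tail x y _ hxy ih =>
    obtain ⟨n, c, h0, hn, hc⟩ := ih
    refine ⟨n + 1, fun k => if k ≤ n then c k else y, ?_, ?_, ?_⟩
    · simp only
      rw [if_pos (by omega), h0]
    · simp only
      rw [if_neg (by omega)]
    · intro k hk
      simp only
      rw [if_pos (by omega)]
      by_cases h : k + 1 ≤ n
      · rw [if_pos h]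
        exact hc k (by omega)
      · rw [if_neg h]
        have h1 : k = n := by omega
        rw [h1, hn]
        exact hxy

end walks

section low
variable {G : Type} [Group G] (h : G →* Multiplicative ℤ)

/-- the products along a walk -/
def wd {J : Type} (y b : J → G) (c : ℕ → J) : ℕ → G
  | 0 => 1
  | k + 1 => wd y b c k * (y (c k) * (b (c (k + 1)))⁻¹)

lemma wd_period {J : Type} (y b : J → G) (c : ℕ → J) {m : ℕ} (hp : ∀ k, c (k + m) = c k) (n : ℕ) :
    wd y b c (n + m) = wd y b c m * wd y b c n := by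
  induction n with
  | zero => simp [wd]
  | succ n ih =>
    have h1 : n + 1 + m = (n + m) + 1 := by ring
    rw [h1]
    simp only [wd]
    rw [ih, hp]
    have h2 : c (n + m + 1) = c (n + 1) := by
      have h3 : n + m + 1 = n + 1 + m := by ring
      rw [h3, hp]
    rw [h2, mul_assoc]

lemma wd_mul {J : Type} (y b : J → G) (c : ℕ → J) {m : ℕ} (hp : ∀ k, c (k + m) = c k) (n : ℕ) :
    wd y b c (n * m) = wd y b c m ^ n := by
  induction n with
  | zero => simp [wd]
  | succ n ih =>
    rw [Nat.succ_mul, wd_period y b c hp, ih, pow_succ']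

variable {J : Type} (N : J → J → ℤ) (α β : J → MonoidAlgebra ℤ G) (y b : J → G) (s r : J → ℤ)

theorem core2 (hs : ∀ j, s j ≠ 0)
    (hα : ∀ j g, (α j - MonoidAlgebra.single (y j) (s j)).coeff g ≠ 0 →
      (h (y j)).toAdd < (h g).toAdd)
    (hβ : ∀ j g, (β j - MonoidAlgebra.single (b j) (r j)).coeff g ≠ 0 →
      (h (b j)).toAdd < (h g).toAdd)
    (z : J →₀ MonoidAlgebra ℤ G)
    (hz : ∀ j₀ ∈ z.support,
      z j₀ * α j₀ + ∑ j ∈ z.support, N j j₀ • (z j * β j) = 0) (hne : z ≠ 0)
    (hpos : ∀ (m : ℕ) (c : ℕ → J),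
      CW (fun x x' => N x' x ≠ 0) (fun x => (h (b x)).toAdd - (h (y x)).toAdd) m c →
      0 ≤ PS (fun x => (h (b x)).toAdd - (h (y x)).toAdd) c m)
    (ρ : J → J)
    (hρ : ∀ (m : ℕ) (c : ℕ → J),
      CW (fun x x' => N x' x ≠ 0) (fun x => (h (b x)).toAdd - (h (y x)).toAdd) m c →
      ∀ k, c (k + 1) = ρ (c k)) :
    ∃ (m : ℕ) (c : ℕ → J) (n : ℕ),
      CW (fun x x' => N x' x ≠ 0) (fun x => (h (b x)).toAdd - (h (y x)).toAdd) m c ∧ 0 < n ∧
      wd y b c m ^ n = 1 := by
  classical
  set W : J → ℤ := fun x => (h (b x)).toAdd - (h (y x)).toAdd with hW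
  -- the lowest degrees
  have hdeg : ∀ j : J, ∃ ν : ℤ, (∀ g', (z j).coeff g' ≠ 0 → ν ≤ (h g').toAdd) ∧
      (j ∈ z.support → ∃ g, (z j).coeff g ≠ 0 ∧ (h g).toAdd = ν) := by
    intro j
    by_cases hj : j ∈ z.support
    · have h1 : ((z j).coeff.support).Nonempty := by
        rw [Finsupp.support_nonempty_iff]
        intro h0
        exact (Finsupp.mem_support_iff.1 hj) (MonoidAlgebra.coeff_eq_zero.1 h0)
      obtain ⟨g, h2, h3⟩ := Finset.exists_min_image _ (fun g => (h g).toAdd) h1
      exact ⟨(h g).toAdd, fun g' h4 => h3 g' (Finsupp.mem_support_iff.2 h4),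
        fun _ => ⟨g, Finsupp.mem_support_iff.1 h2, rfl⟩⟩
    · refine ⟨0, ?_, fun h1 => absurd h1 hj⟩
      intro g' hg'
      rw [Finsupp.notMem_support_iff.1 hj] at hg'
      exact absurd rfl hg'
  choose ν hν hνg using hdeg
  -- the arcs which contribute to the lowest terms
  let H : J → J → Prop := fun x e => x ∈ z.support ∧ e ∈ z.support ∧ N e x ≠ 0 ∧
    ν e + (h (b e)).toAdd ≤ ν x + (h (y x)).toAdd
  -- every lowest term is compensated
  have hstep : ∀ x ∈ z.support, ∀ g, (z x).coeff g ≠ 0 → (h g).toAdd = ν x →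
      ∃ e, H x e ∧ (z e * β e).coeff (g * y x) ≠ 0 := by
    intro x hx g hg hgν
    have h1 := congrArg (fun u : MonoidAlgebra ℤ G => u.coeff (g * y x)) (hz x hx)
    simp only [MonoidAlgebra.coeff_zero, Finsupp.coe_zero, Pi.zero_apply] at h1
    rw [MonoidAlgebra.coeff_add, Finsupp.add_apply,
      coeff_pivot h _ _ _ _ (hα x) _ (fun g' hg' => by rw [hgν]; exact hν x g' hg'),
      MonoidAlgebra.coeff_sum, Finsupp.finsetSum_apply] at h1
    have h2 : ∑ j ∈ z.support, (N j x • (z j * β j)).coeff (g * y x) ≠ 0 := by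
      intro h3
      rw [h3, add_zero] at h1
      exact mul_ne_zero hg (hs x) h1
    obtain ⟨e, he, he1⟩ := Finset.exists_ne_zero_of_sum_ne_zero h2
    have h3 : (z e * β e).coeff (g * y x) ≠ 0 := by
      intro h4
      apply he1
      rw [MonoidAlgebra.coeff_smul, Finsupp.smul_apply, h4, smul_zero]
    refine ⟨e, ⟨hx, he, ?_, ?_⟩, h3⟩
    · intro h4
      apply he1
      rw [h4, zero_smul]
      rfl
    · obtain ⟨g', h4, h5⟩ := mul_coeff_ne h3
      have h6 := hν e g' h4
      have h7 : (h (b e)).toAdd ≤ (h (g'⁻¹ * (g * y x))).toAdd := by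
        by_cases h8 : (β e - MonoidAlgebra.single (b e) (r e)).coeff (g'⁻¹ * (g * y x)) = 0
        · have h9 : β e = (β e - MonoidAlgebra.single (b e) (r e)) +
              MonoidAlgebra.single (b e) (r e) := by abel
          rw [h9, MonoidAlgebra.coeff_add, Finsupp.add_apply, h8, zero_add,
            MonoidAlgebra.coeff_single, Finsupp.single_apply] at h5
          have h10 : b e = g'⁻¹ * (g * y x) := by
            by_contra h11
            rw [if_neg h11] at h5
            exact h5 rfl
          rw [← h10]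
        · exact (hβ e _ h8).le
      rw [h.map_mul, h.map_mul, h.map_inv, toAdd_mul, toAdd_mul, toAdd_inv] at h7
      omega
  -- closed walks along H have nonpositive weight
  have hcl : ∀ (n : ℕ) (c : ℕ → J), (∀ k, k < n + 1 → H (c k) (c (k + 1))) → c (n + 1) = c 0 →
      PS W c (n + 1) ≤ 0 := by
    intro n c hc hb
    have h1 : ∑ k ∈ Finset.range (n + 1), (ν (c (k + 1)) + (h (b (c (k + 1)))).toAdd) ≤
        ∑ k ∈ Finset.range (n + 1), (ν (c k) + (h (y (c k))).toAdd) :=
      Finset.sum_le_sum fun k hk => (hc k (Finset.mem_range.1 hk)).2.2.2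
    have hshift : ∀ F : J → ℤ, ∑ k ∈ Finset.range (n + 1), F (c (k + 1)) =
        ∑ k ∈ Finset.range (n + 1), F (c k) := by
      intro F
      have h3 := Finset.sum_range_succ (fun k => F (c k)) (n + 1)
      have h4 := Finset.sum_range_succ' (fun k => F (c k)) (n + 1)
      rw [hb] at h3
      linarith
    rw [hshift (fun x => ν x + (h (b x)).toAdd), Finset.sum_add_distrib,
      Finset.sum_add_distrib] at h1
    unfold PS
    simp only [hW]
    rw [Finset.sum_sub_distrib]
    linarith
  -- a terminal strongly connected set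
  let RS : J → Finset J := fun x => z.support.filter fun e => Relation.ReflTransGen H x e
  obtain ⟨x₀, hx₀, hmin⟩ := Finset.exists_min_image z.support (fun x => (RS x).card)
    (Finsupp.support_nonempty_iff.2 hne)
  have hback : ∀ e, Relation.ReflTransGen H x₀ e → Relation.ReflTransGen H e x₀ := by
    intro e he
    have hes : e ∈ z.support := by
      rcases Relation.ReflTransGen.cases_tail he with h1 | ⟨d, -, h1⟩
      · rw [h1]
        exact hx₀
      · exact h1.2.1
    have h1 : RS e ⊆ RS x₀ := by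
      intro d hd
      simp only [RS, Finset.mem_filter] at hd ⊢
      exact ⟨hd.1, he.trans hd.2⟩
    have h2 : RS e = RS x₀ := Finset.eq_of_subset_of_card_le h1 (hmin e hes)
    have h3 : x₀ ∈ RS e := by
      rw [h2]
      simp only [RS, Finset.mem_filter]
      exact ⟨hx₀, Relation.ReflTransGen.refl⟩
    simp only [RS, Finset.mem_filter] at h3
    exact h3.2
  -- in this set there is only one arc
  have huniq : ∀ x e, Relation.ReflTransGen H x₀ x → H x e → e = ρ x ∧
      ν e + (h (b e)).toAdd = ν x + (h (y x)).toAdd := by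
    intro x e hx hxe
    obtain ⟨n, c, hc0, hcn, hc⟩ := path_seq ((hback e (hx.tail hxe)).trans hx)
    let c' : ℕ → J := fun k => Nat.rec x (fun n _ => c n) k
    have hc'0 : c' 0 = x := rfl
    have hc'1 : ∀ k, c' (k + 1) = c k := fun _ => rfl
    have hc' : ∀ k, k < n + 1 → H (c' k) (c' (k + 1)) := by
      intro k hk
      cases k with
      | zero =>
        rw [hc'1, hc'0, hc0]
        exact hxe
      | succ k =>
        rw [hc'1, hc'1]
        exact hc k (by omega)
    have hcb : c' (n + 1) = c' 0 := by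
      rw [hc'1, hc'0, hcn]
    clear_value c'
    have hcw := seg (R := fun x x' => N x' x ≠ 0) (w := W) n
      (fun k hk => (hc' k hk).2.2.1) hcb (hcl n c' hc' hcb)
    constructor
    · have h1 := hρ _ _ hcw 0
      simp only [zero_add, Nat.zero_mod] at h1
      by_cases hn : n = 0
      · have h2 : x = e := by rw [← hcn, ← hc0, hn]
        rw [hn] at h1
        simp only [zero_add, Nat.mod_self, hc'0] at h1
        rw [← h2]
        exact h1
      · rw [Nat.mod_eq_of_lt (by omega), hc'0] at h1
        have h3 : c' 1 = e := by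
          have h4 := hc'1 0
          rw [hc0] at h4
          exact h4
        rw [h3] at h1
        exact h1
    · -- equality
      by_contra hne'
      have hlt : ν e + (h (b e)).toAdd < ν x + (h (y x)).toAdd := lt_of_le_of_ne hxe.2.2.2 hne'
      have h1 : ∑ k ∈ Finset.range (n + 1), (ν (c' (k + 1)) + (h (b (c' (k + 1)))).toAdd) <
          ∑ k ∈ Finset.range (n + 1), (ν (c' k) + (h (y (c' k))).toAdd) := by
        refine Finset.sum_lt_sum (fun k hk => (hc' k (Finset.mem_range.1 hk)).2.2.2)
          ⟨0, Finset.mem_range.2 (by omega), ?_⟩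
        rw [hc'1, hc'0, hc0]
        exact hlt
      have hshift : ∀ F : J → ℤ, ∑ k ∈ Finset.range (n + 1), F (c' (k + 1)) =
          ∑ k ∈ Finset.range (n + 1), F (c' k) := by
        intro F
        have h3 := Finset.sum_range_succ (fun k => F (c' k)) (n + 1)
        have h4 := Finset.sum_range_succ' (fun k => F (c' k)) (n + 1)
        rw [hcb] at h3
        linarith
      rw [hshift (fun x => ν x + (h (b x)).toAdd), Finset.sum_add_distrib,
        Finset.sum_add_distrib] at h1
      have h2 := hpos _ _ hcw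
      have h3 : PS W (fun k => c' (k % (n + 1))) (n + 1) = PS W c' (n + 1) := by
        unfold PS
        refine Finset.sum_congr rfl fun k hk => ?_
        simp only
        rw [Nat.mod_eq_of_lt (Finset.mem_range.1 hk)]
      rw [h3] at h2
      unfold PS at h2
      simp only [hW] at h2
      rw [Finset.sum_sub_distrib] at h2
      linarith
  -- the lowest terms along the walk
  obtain ⟨g₀, hg₀, hg₀ν⟩ := hνg x₀ hx₀
  have hnext : ∀ x g, Relation.ReflTransGen H x₀ x → x ∈ z.support → (z x).coeff g ≠ 0 →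
      (h g).toAdd = ν x → H x (ρ x) ∧ (z (ρ x)).coeff (g * (y x * (b (ρ x))⁻¹)) ≠ 0 ∧
        (h (g * (y x * (b (ρ x))⁻¹))).toAdd = ν (ρ x) := by
    intro x g hx hxs hg hgν
    obtain ⟨e, he, he1⟩ := hstep x hxs g hg hgν
    obtain ⟨h1, h2⟩ := huniq x e hx he
    rw [← h1]
    have h3 : (h (g * (y x * (b e)⁻¹))).toAdd = ν e := by
      rw [h.map_mul, h.map_mul, h.map_inv, toAdd_mul, toAdd_mul, toAdd_inv]
      omega
    refine ⟨he, ?_, h3⟩
    have h4 := coeff_pivot h (z e) (β e) (b e) (r e) (hβ e) (g * (y x * (b e)⁻¹))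
      (fun g' hg' => by rw [h3]; exact hν e g' hg')
    have h5 : g * (y x * (b e)⁻¹) * b e = g * y x := by
      simp [mul_assoc]
    rw [h5] at h4
    rw [h4] at he1
    exact left_ne_zero_of_mul he1
  let c : ℕ → J := fun k => ρ^[k] x₀
  have hc1 : ∀ k, c (k + 1) = ρ (c k) := fun k => Function.iterate_succ_apply' ρ k x₀
  have hwalk : ∀ k, Relation.ReflTransGen H x₀ (c k) ∧ c k ∈ z.support ∧
      (z (c k)).coeff (g₀ * wd y b c k) ≠ 0 ∧ (h (g₀ * wd y b c k)).toAdd = ν (c k) := by
    intro k
    induction k with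
    | zero =>
      refine ⟨Relation.ReflTransGen.refl, hx₀, ?_, ?_⟩
      · simp only [wd, mul_one]
        exact hg₀
      · simp only [wd, mul_one]
        exact hg₀ν
    | succ k ih =>
      obtain ⟨i1, i2, i3, i4⟩ := ih
      obtain ⟨j1, j2, j3⟩ := hnext _ _ i1 i2 i3 i4
      simp only [wd]
      rw [hc1, ← mul_assoc]
      exact ⟨i1.tail j1, j1.2.1, j2, j3⟩
  -- the walk is closed
  obtain ⟨a, a', haa, he⟩ : ∃ a a' : ℕ, a < a' ∧ c a = c a' := by
    let F : ℕ → z.support := fun k => ⟨c k, (hwalk k).2.1⟩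
    obtain ⟨a, a', hab, he⟩ := Finite.exists_ne_map_eq_of_infinite F
    have he' : c a = c a' := congrArg Subtype.val he
    rcases lt_or_gt_of_ne hab with h1 | h1
    · exact ⟨a, a', h1, he'⟩
    · exact ⟨a', a, h1, he'.symm⟩
  -- shift the walk
  let d : ℕ → J := fun k => c (a + k)
  obtain ⟨m, hm⟩ : ∃ m, a' = a + (m + 1) := ⟨a' - a - 1, by omega⟩
  have hd1 : ∀ k, d (k + 1) = ρ (d k) := fun k => hc1 (a + k)
  have hdp : ∀ k, d (k + (m + 1)) = d k := by
    intro k
    induction k with
    | zero =>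
      simp only [d, zero_add, add_zero]
      rw [he, hm]
    | succ k ih =>
      have h1 : k + 1 + (m + 1) = (k + (m + 1)) + 1 := by ring
      rw [h1, hd1, hd1, ih]
  have hdH : ∀ k, H (d k) (d (k + 1)) := by
    intro k
    obtain ⟨i1, i2, i3, i4⟩ := hwalk (a + k)
    rw [hd1]
    exact (hnext _ _ i1 i2 i3 i4).1
  have hdb : d (m + 1) = d 0 := by
    have h1 := hdp 0
    rwa [zero_add] at h1
  have hdcw : CW (fun x x' => N x' x ≠ 0) W (m + 1) d :=
    ⟨by omega, fun k => (hdH k).2.2.1, hdp, hcl m d (fun k _ => hdH k) hdb⟩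
  -- infinitely many elements of a finite support
  have hsup : ∀ n, (z (d 0)).coeff (g₀ * wd y b c a * wd y b d (m + 1) ^ n) ≠ 0 := by
    intro n
    have h1 : ∀ k, wd y b c (a + k) = wd y b c a * wd y b d k := by
      intro k
      induction k with
      | zero => simp [wd]
      | succ k ih =>
        rw [← add_assoc]
        simp only [wd]
        rw [ih, mul_assoc]
        rfl
    have h2 := (hwalk (a + n * (m + 1))).2.2.1
    rw [h1, wd_mul y b d hdp, ← mul_assoc] at h2
    have h3 : c (a + n * (m + 1)) = d 0 := by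
      change d (n * (m + 1)) = d 0
      induction n with
      | zero => simp
      | succ n ih =>
        rw [Nat.succ_mul, hdp]
        exact ih (by
          have h4 := (hwalk (a + n * (m + 1))).2.2.1
          rwa [h1, wd_mul y b d hdp, ← mul_assoc] at h4)
    rwa [h3] at h2
  obtain ⟨n, n', hnn, hen⟩ : ∃ n n' : ℕ, n < n' ∧
      wd y b d (m + 1) ^ n = wd y b d (m + 1) ^ n' := by
    let F : ℕ → (z (d 0)).coeff.support := fun n =>
      ⟨g₀ * wd y b c a * wd y b d (m + 1) ^ n, Finsupp.mem_support_iff.2 (hsup n)⟩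
    obtain ⟨n, n', hab, he⟩ := Finite.exists_ne_map_eq_of_infinite F
    have he' : g₀ * wd y b c a * wd y b d (m + 1) ^ n = g₀ * wd y b c a * wd y b d (m + 1) ^ n' :=
      congrArg Subtype.val he
    have he'' := mul_left_cancel he'
    rcases lt_or_gt_of_ne hab with h1 | h1
    · exact ⟨n, n', h1, he''⟩
    · exact ⟨n', n, h1, he''.symm⟩
  refine ⟨m + 1, d, n' - n, hdcw, by omega, ?_⟩
  have h1 : wd y b d (m + 1) ^ n' = wd y b d (m + 1) ^ n * wd y b d (m + 1) ^ (n' - n) := by
    rw [← pow_add]
    congr 1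
    omega
  rw [h1] at hen
  exact (mul_eq_left.1 hen.symm)

end low

end Pool.Agent.Helper78K9.GO3
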