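import Pool.Agent.Helper78K9.GO3.Core2

set_option autoImplicit false

/-!
# Closed walks of weight zero and sets with exactly one permutation
-/

namespace Pool.Agent.Helper78K9.GO3

open Finset

section tools
variable {E : Type} (R : E → E → Prop) (w : E → ℤ)

/-- `c` is a closed walk of length `m`. -/
def Cl (m : ℕ) (c : ℕ → E) : Prop := 0 < m ∧ (∀ i, R (c i) (c (i + 1))) ∧ ∀ i, c (i + m) = c i

/-- `S` is a nonempty set with exactly one permutation along `R`. -/
def One (S : Finset E) (σ : Equiv.Perm E) : Prop :=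
  S.Nonempty ∧ (∀ x, x ∉ S → σ x = x) ∧ (∀ x ∈ S, R x (σ x)) ∧
    ∀ τ : Equiv.Perm E, (∀ x, x ∉ S → τ x = x) → (∀ x ∈ S, R x (τ x)) → τ = σ

variable {R w}

/-- the segment from `i` to `i + l - 1` of a closed walk, if it closes up -/
lemma cut_cl {m : ℕ} {c : ℕ → E} (hc : Cl R m c) (i l : ℕ) (hl : 0 < l)
    (hb : R (c (i + (l - 1))) (c i)) : Cl R l (fun k => c (i + k % l)) := by
  refine ⟨hl, fun k => ?_, fun k => ?_⟩
  · simp only
    by_cases h : k % l + 1 < l
    · have h1 : (k + 1) % l = k % l + 1 := by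
        rw [Nat.add_mod, Nat.mod_eq_of_lt (show 1 < l by omega), Nat.mod_eq_of_lt h]
      rw [h1]
      exact hc.2.1 _
    · have h2 : k % l < l := Nat.mod_lt _ hl
      have h3 : k % l = l - 1 := by omega
      have h1 : (k + 1) % l = 0 := by
        have h4 : k + 1 = l * (k / l) + l := by
          have := Nat.div_add_mod k l
          omega
        rw [h4]
        simp
      rw [h1, h3, add_zero]
      exact hb
  · simp only
    rw [Nat.add_mod_right]

lemma cut_ps (c : ℕ → E) (i l : ℕ) :
    PS w (fun k => c (i + k % l)) l = PS w c (i + l) - PS w c i := by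
  unfold PS
  rw [Finset.sum_range_add]
  have h1 : ∑ k ∈ range l, w (c (i + k % l)) = ∑ k ∈ range l, w (c (i + k)) := by
    refine Finset.sum_congr rfl fun k hk => ?_
    rw [Nat.mod_eq_of_lt (Finset.mem_range.1 hk)]
  rw [h1]
  ring

/-- injectivity on a period -/
def Inj (m : ℕ) (c : ℕ → E) : Prop := ∀ i j, i < j → j < i + m → c i ≠ c j

lemma inj_mod {m : ℕ} {c : ℕ → E} (hc : Cl R m c) (hi : Inj m c) {k k' : ℕ} (h : c k = c k') :
    k % m = k' % m := by
  have hmod : ∀ k, c (k % m) = c k := fun k => Function.Periodic.map_mod_nat (f := c) hc.2.2 k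
  rw [← hmod k, ← hmod k'] at h
  have h1 := Nat.mod_lt k hc.1
  have h2 := Nat.mod_lt k' hc.1
  rcases lt_trichotomy (k % m) (k' % m) with h3 | h3 | h3
  · exact absurd h (hi _ _ h3 (by omega))
  · exact h3
  · exact absurd h.symm (hi _ _ h3 (by omega))

/-- the next index -/
lemma exists_next {m : ℕ} {c : ℕ → E} (hc : Cl R m c) (j' k : ℕ) :
    ∃ r, r < m ∧ c (k + 1 + r) = c j' := by
  have hmod : ∀ k, c (k % m) = c k := fun k => Function.Periodic.map_mod_nat (f := c) hc.2.2 k
  have hm0 := hc.1
  refine ⟨(j' + (m - 1) * (k + 1)) % m, Nat.mod_lt _ hm0, ?_⟩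
  rw [← hmod, ← hmod j']
  congr 1
  rw [Nat.add_mod_mod]
  have h1 : k + 1 + (j' + (m - 1) * (k + 1)) = j' + m * (k + 1) := by
    obtain ⟨m', rfl⟩ : ∃ m', m = m' + 1 := ⟨m - 1, by omega⟩
    simp only [Nat.add_sub_cancel]
    ring
  rw [h1, Nat.add_mul_mod_self_left]

variable [Finite E]

/-- the permutation of an injective closed walk -/
theorem exists_cyc [DecidableEq E] {m : ℕ} {c : ℕ → E} (hc : Cl R m c) (hi : Inj m c) :
    ∃ (S : Finset E) (σ : Equiv.Perm E), (∀ x, x ∈ S ↔ ∃ k, c k = x) ∧
      (∀ k, σ (c k) = c (k + 1)) ∧ (∀ x, x ∉ S → σ x = x) ∧ ∑ x ∈ S, w x = PS w c m ∧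
      S.card = m := by
  classical
  have hm0 := hc.1
  have hmod : ∀ k, c (k % m) = c k := fun k => Function.Periodic.map_mod_nat (f := c) hc.2.2 k
  have hsucc : ∀ k k', c k = c k' → c (k + 1) = c (k' + 1) := by
    intro k k' h
    have h1 := inj_mod hc hi h
    rw [← hmod (k + 1), ← hmod (k' + 1), Nat.add_mod, h1, ← Nat.add_mod]
  have hpred : ∀ k k', c (k + 1) = c (k' + 1) → c k = c k' := by
    intro k k' h
    have h1 : k + 1 ≡ k' + 1 [MOD m] := inj_mod hc hi h
    have h2 : k ≡ k' [MOD m] := Nat.ModEq.add_right_cancel' 1 h1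
    have h3 : k % m = k' % m := h2
    rw [← hmod k, ← hmod k', h3]
  let φ : E → E := fun x => if h : ∃ k, c k = x then c (h.choose + 1) else x
  have hφ : ∀ k, φ (c k) = c (k + 1) := by
    intro k
    have h : ∃ k', c k' = c k := ⟨k, rfl⟩
    simp only [φ]
    rw [dif_pos h]
    exact hsucc _ _ h.choose_spec
  have hφ' : ∀ x, (¬ ∃ k, c k = x) → φ x = x := by
    intro x h
    simp only [φ]
    rw [dif_neg h]
  have hφi : Function.Injective φ := by
    intro x y h
    by_cases hx : ∃ k, c k = x
    · by_cases hy : ∃ k, c k = y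
      · obtain ⟨k, rfl⟩ := hx
        obtain ⟨k', rfl⟩ := hy
        rw [hφ, hφ] at h
        exact hpred _ _ h
      · obtain ⟨k, rfl⟩ := hx
        rw [hφ, hφ' y hy] at h
        exact absurd ⟨_, h⟩ hy
    · by_cases hy : ∃ k, c k = y
      · obtain ⟨k, rfl⟩ := hy
        rw [hφ, hφ' x hx] at h
        exact absurd ⟨_, h.symm⟩ hx
      · rwa [hφ' x hx, hφ' y hy] at h
  have hS : ∀ x, x ∈ (range m).image c ↔ ∃ k, c k = x := by
    intro x
    simp only [Finset.mem_image, Finset.mem_range]
    constructor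
    · rintro ⟨k, -, h⟩
      exact ⟨k, h⟩
    · rintro ⟨k, h⟩
      exact ⟨k % m, Nat.mod_lt _ hm0, by rw [hmod, h]⟩
  have hio : Set.InjOn c (range m : Finset ℕ) := by
    intro i hi' j hj h
    have h1 := inj_mod hc hi h
    rw [Finset.mem_coe, Finset.mem_range] at hi' hj
    rwa [Nat.mod_eq_of_lt hi', Nat.mod_eq_of_lt hj] at h1
  refine ⟨(range m).image c, Equiv.ofBijective φ (Finite.injective_iff_bijective.1 hφi), hS, hφ,
    fun x hx => hφ' x (fun h => hx ((hS x).2 h)), ?_, ?_⟩
  · rw [Finset.sum_image hio]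
    rfl
  · rw [Finset.card_image_of_injOn hio, Finset.card_range]

/-- The comparison of another permutation with the cyclic one, by a potential. -/
theorem compare [DecidableEq E] {m : ℕ} {c : ℕ → E} (hc : Cl R m c) (hi : Inj m c) {S : Finset E}
    {σ τ : Equiv.Perm E} (hS : ∀ x, x ∈ S ↔ ∃ k, c k = x) (hσ : ∀ k, σ (c k) = c (k + 1))
    (hσ' : ∀ x, x ∉ S → σ x = x) (hτ : ∀ x, x ∉ S → τ x = x)
    (hD : ∀ k r, 0 < r → r < m → c (k + 1 + r) = τ (c k) →
      0 ≤ m * (PS w c (k + 1) + PS w c m - PS w c (k + 1 + r)) - (m - r) * PS w c m) :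
    ∀ k r, 0 < r → r < m → c (k + 1 + r) = τ (c k) →
      m * (PS w c (k + 1) + PS w c m - PS w c (k + 1 + r)) - (m - r) * PS w c m = 0 := by
  classical
  have := Fintype.ofFinite E
  have hp := hc.2.2
  let q : ℕ → ℤ := fun k => m * PS w c k - k * PS w c m
  have hq : ∀ k, q (k + m) = q k := by
    intro k
    simp only [q]
    rw [PS_add hp]
    push_cast
    ring
  have hqm : ∀ k, q (k % m) = q k := fun k => Function.Periodic.map_mod_nat (f := q) hq k
  let p : E → ℤ := fun x => if h : ∃ k, c k = x then q h.choose else 0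
  have hpc : ∀ k, p (c k) = q k := by
    intro k
    have h : ∃ k', c k' = c k := ⟨k, rfl⟩
    simp only [p]
    rw [dif_pos h, ← hqm, inj_mod hc hi h.choose_spec, hqm]
  have hdiff : ∀ k r, c (k + 1 + r) = τ (c k) → p (σ (c k)) - p (τ (c k)) =
      m * (PS w c (k + 1) + PS w c m - PS w c (k + 1 + r)) - (m - r) * PS w c m := by
    intro k r h
    rw [← h, hσ, hpc, hpc]
    simp only [q]
    push_cast
    ring
  have hkey : ∀ x, p (τ x) ≤ p (σ x) := by
    intro x
    by_cases hx : x ∈ S
    · have hx' : ∃ j, c j = τ x := by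
        rw [← hS]
        by_contra h
        have h1 := hτ _ h
        have h2 := τ.injective h1
        rw [h2] at h
        exact h hx
      obtain ⟨k, rfl⟩ := (hS x).1 hx
      obtain ⟨j', hj'⟩ := hx'
      obtain ⟨r, hr, hrj⟩ := exists_next hc j' k
      rw [hj'] at hrj
      rcases Nat.eq_zero_or_pos r with h0 | h0
      · rw [h0, add_zero, ← hσ] at hrj
        rw [hrj]
      · have h1 := hdiff k r hrj
        have h2 := hD k r h0 hr hrj
        linarith
    · rw [hτ x hx, hσ' x hx]
  have hsum : ∑ x, p (τ x) = ∑ x, p (σ x) := by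
    rw [Equiv.sum_comp τ p, Equiv.sum_comp σ p]
  have hall := (Finset.sum_eq_sum_iff_of_le fun x _ => hkey x).1 hsum
  intro k r h0 hr hrj
  rw [← hdiff k r hrj, hall (c k) (Finset.mem_univ _), sub_self]

/-- A shortest closed walk of weight at most `t`, `t = 0` or `t = -1`. -/
theorem exists_one [DecidableEq E] (t : ℤ) (ht : t = 0 ∨ t = -1) {m : ℕ} {c : ℕ → E}
    (hc : Cl R m c) (hw : PS w c m ≤ t) :
    ∃ (S : Finset E) (σ : Equiv.Perm E) (c₁ : ℕ → E), One R S σ ∧ ∑ x ∈ S, w x ≤ t ∧
      Cl R S.card c₁ ∧ Inj S.card c₁ ∧ (∀ x, x ∈ S ↔ ∃ k, c₁ k = x) ∧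
      (∀ k, σ (c₁ k) = c₁ (k + 1)) ∧
      ∀ (m' : ℕ) (c' : ℕ → E), Cl R m' c' → PS w c' m' ≤ t → S.card ≤ m' := by
  classical
  have hex : ∃ m, ∃ c, Cl R m c ∧ PS w c m ≤ t := ⟨m, c, hc, hw⟩
  obtain ⟨c₁, hc₁, hw₁⟩ := Nat.find_spec hex
  have hmin : ∀ l c', Cl R l c' → PS w c' l ≤ t → Nat.find hex ≤ l :=
    fun l c' h1 h2 => Nat.find_min' hex ⟨c', h1, h2⟩
  set m₁ := Nat.find hex with hm
  clear_value m₁
  have hpos : ∀ i l, 0 < l → l < m₁ → R (c₁ (i + (l - 1))) (c₁ i) →
      t + 1 ≤ PS w c₁ (i + l) - PS w c₁ i := by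
    intro i l hl hlm hb
    by_contra h
    have h1 := hmin l _ (cut_cl hc₁ i l hl hb) (by rw [cut_ps]; omega)
    omega
  have hp := hc₁.2.2
  have hi : Inj m₁ c₁ := by
    intro i j hij hjm he
    have h1 := hpos i (j - i) (by omega) (by omega) (by
      have h2 := hc₁.2.1 (i + (j - i - 1))
      have h3 : i + (j - i - 1) + 1 = j := by omega
      rw [h3, ← he] at h2
      exact h2)
    have h2 := hpos j (i + m₁ - j) (by omega) (by omega) (by
      have h2 := hc₁.2.1 (j + (i + m₁ - j - 1))
      have h3 : j + (i + m₁ - j - 1) + 1 = i + m₁ := by omega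
      rw [h3, hp, he] at h2
      exact h2)
    have h3 : i + (j - i) = j := by omega
    have h4 : j + (i + m₁ - j) = i + m₁ := by omega
    rw [h3] at h1
    rw [h4, PS_add hp] at h2
    rcases ht with rfl | rfl <;> omega
  obtain ⟨S, σ, hS, hσ, hσ', hSw, hScard⟩ := exists_cyc (w := w) hc₁ hi
  refine ⟨S, σ, c₁, ⟨⟨c₁ 0, (hS _).2 ⟨0, rfl⟩⟩, hσ', ?_, ?_⟩, by rw [hSw]; exact hw₁,
    by rw [hScard]; exact hc₁, by rw [hScard]; exact hi, hS, hσ,
    by rw [hScard]; exact hmin⟩
  · intro x hx
    obtain ⟨k, rfl⟩ := (hS x).1 hx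
    rw [hσ]
    exact hc₁.2.1 k
  · intro τ hτ hτR
    have hbig : ∀ k r, 0 < r → r < m₁ → c₁ (k + 1 + r) = τ (c₁ k) →
        0 < m₁ * (PS w c₁ (k + 1) + PS w c₁ m₁ - PS w c₁ (k + 1 + r)) -
          (m₁ - r) * PS w c₁ m₁ := by
      intro k r h0 hr hrj
      have h2 := hpos (k + 1 + r) (m₁ - r) (by omega) (by omega) (by
        have h3 : k + 1 + r + (m₁ - r - 1) = k + m₁ := by omega
        rw [h3, hp, hrj]
        exact hτR _ ((hS _).2 ⟨k, rfl⟩))
      have h3 : k + 1 + r + (m₁ - r) = (k + 1) + m₁ := by omega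
      rw [h3, PS_add hp] at h2
      have h4 : (0 : ℤ) < r := by exact_mod_cast h0
      have h5 : (r : ℤ) < m₁ := by exact_mod_cast hr
      have h6 : (m₁ : ℤ) * (t + 1) ≤
          m₁ * (PS w c₁ (k + 1) + PS w c₁ m₁ - PS w c₁ (k + 1 + r)) :=
        mul_le_mul_of_nonneg_left h2 (by linarith)
      have h7 : ((m₁ : ℤ) - r) * PS w c₁ m₁ ≤ (m₁ - r) * t :=
        mul_le_mul_of_nonneg_left hw₁ (by linarith)
      rcases ht with rfl | rfl <;> nlinarith
    have hz := compare hc₁ hi hS hσ hσ' hτ (fun k r h0 hr hrj => (hbig k r h0 hr hrj).le)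
    ext1 x
    by_cases hx : x ∈ S
    · have hx' : ∃ j, c₁ j = τ x := by
        rw [← hS]
        by_contra h
        have h1 := hτ _ h
        have h2 := τ.injective h1
        rw [h2] at h
        exact h hx
      obtain ⟨k, rfl⟩ := (hS x).1 hx
      obtain ⟨j', hj'⟩ := hx'
      obtain ⟨r, hr, hrj⟩ := exists_next hc₁ j' k
      rw [hj'] at hrj
      rcases Nat.eq_zero_or_pos r with h0 | h0
      · rw [h0, add_zero, ← hσ] at hrj
        exact hrj.symm
      · have h1 := hz k r h0 hr hrj
        have h2 := hbig k r h0 hr hrj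
        omega
    · rw [hτ x hx, hσ' x hx]

/-- If there are no closed walks of negative weight and only one set of weight zero with exactly one
permutation, then all closed walks of weight zero follow this permutation. -/
theorem zero_walk [DecidableEq E] (hneg : ∀ (m : ℕ) (c : ℕ → E), Cl R m c → 0 ≤ PS w c m)
    {S₀ : Finset E} {π : Equiv.Perm E} (hone : One R S₀ π)
    (hcard : ∀ (m : ℕ) (c : ℕ → E), Cl R m c → PS w c m ≤ 0 → S₀.card ≤ m)
    (huniq : ∀ (S : Finset E) (σ : Equiv.Perm E), One R S σ → ∑ x ∈ S, w x ≤ 0 → S = S₀) :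
    ∀ (m : ℕ) (c : ℕ → E), Cl R m c → PS w c m ≤ 0 → ∀ k, c k ∈ S₀ ∧ c (k + 1) = π (c k) := by
  classical
  intro m
  induction m using Nat.strong_induction_on with
  | _ m ih =>
  intro c hc hw
  have hp := hc.2.2
  have hw0 : PS w c m = 0 := le_antisymm hw (hneg m c hc)
  have hmod : ∀ k, c (k % m) = c k := fun k => Function.Periodic.map_mod_nat (f := c) hp k
  by_cases hi : Inj m c
  · -- the walk is injective
    obtain ⟨S, σ, hS, hσ, hσ', hSw, hScard⟩ := exists_cyc (w := w) hc hi
    have hσR : ∀ x ∈ S, R x (σ x) := by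
      intro x hx
      obtain ⟨k, rfl⟩ := (hS x).1 hx
      rw [hσ]
      exact hc.2.1 k
    have hone' : One R S σ := by
      refine ⟨⟨c 0, (hS _).2 ⟨0, rfl⟩⟩, hσ', hσR, ?_⟩
      intro τ hτ hτR
      -- the closed walk of a step along `τ`
      have hcl : ∀ k r, 0 < r → r < m → c (k + 1 + r) = τ (c k) →
          Cl R (m - r) (fun i => c (k + 1 + r + i % (m - r))) := by
        intro k r h0 hr hrj
        refine cut_cl hc (k + 1 + r) (m - r) (by omega) ?_
        have h3 : k + 1 + r + (m - r - 1) = k + m := by omega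
        rw [h3, hp, hrj]
        exact hτR _ ((hS _).2 ⟨k, rfl⟩)
      have hcw : ∀ k r, 0 < r → r < m →
          PS w (fun i => c (k + 1 + r + i % (m - r))) (m - r) =
            PS w c (k + 1) + PS w c m - PS w c (k + 1 + r) := by
        intro k r h0 hr
        rw [cut_ps]
        have h3 : k + 1 + r + (m - r) = (k + 1) + m := by omega
        rw [h3, PS_add hp]
      have hz := compare (w := w) hc hi hS hσ hσ' hτ (by
        intro k r h0 hr hrj
        have h1 := hneg _ _ (hcl k r h0 hr hrj)
        rw [hcw k r h0 hr] at h1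
        rw [hw0] at h1 ⊢
        rw [mul_zero, sub_zero]
        exact mul_nonneg (by exact_mod_cast Nat.zero_le m) h1)
      -- these walks follow `π`
      have hfol : ∀ k r, 0 < r → r < m → c (k + 1 + r) = τ (c k) →
          (∀ i, c (k + 1 + r + i % (m - r)) ∈ S₀ ∧
            c (k + 1 + r + (i + 1) % (m - r)) = π (c (k + 1 + r + i % (m - r)))) := by
        intro k r h0 hr hrj
        refine ih (m - r) (by omega) _ (hcl k r h0 hr hrj) ?_
        have h1 := hz k r h0 hr hrj
        rw [hcw k r h0 hr]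
        rw [hw0] at h1 ⊢
        rw [mul_zero, sub_zero] at h1
        have h2 : (m : ℤ) ≠ 0 := by
          have := hc.1
          omega
        exact le_of_eq ((mul_eq_zero.1 h1).resolve_left h2)
      by_contra hne
      -- two points where the permutations differ
      obtain ⟨x, hx⟩ : ∃ x, τ x ≠ σ x := by
        by_contra h
        push Not at h
        exact hne (Equiv.ext h)
      obtain ⟨x', hx', hxx⟩ : ∃ x', τ x' ≠ σ x' ∧ x' ≠ x := by
        refine ⟨τ.symm (σ x), ?_, ?_⟩
        · rw [Equiv.apply_symm_apply]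
          intro h
          have h1 := σ.injective h
          apply hx
          conv_lhs => rw [h1]
          rw [Equiv.apply_symm_apply]
        · intro h
          apply hx
          conv_lhs => rw [← h]
          rw [Equiv.apply_symm_apply]
      have hdat : ∀ x, τ x ≠ σ x → ∃ k r, c k = x ∧ 0 < r ∧ r < m ∧ c (k + 1 + r) = τ (c k) := by
        intro x hx
        have hxS : x ∈ S := by
          by_contra h
          apply hx
          rw [hτ x h, hσ' x h]
        have hx' : ∃ j, c j = τ x := by
          rw [← hS]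
          by_contra h
          have h1 := hτ _ h
          have h2 := τ.injective h1
          rw [h2] at h
          exact h hxS
        obtain ⟨k, rfl⟩ := (hS x).1 hxS
        obtain ⟨j', hj'⟩ := hx'
        obtain ⟨r, hr, hrj⟩ := exists_next hc j' k
        rw [hj'] at hrj
        refine ⟨k, r, rfl, ?_, hr, hrj⟩
        rcases Nat.eq_zero_or_pos r with h0 | h0
        · rw [h0, add_zero, ← hσ] at hrj
          exact absurd hrj.symm hx
        · exact h0
      -- `π` at such a point, and the whole set `S₀`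
      have hπ : ∀ x, τ x ≠ σ x → π x = τ x ∧ x ∈ S₀ ∧ ∀ u ∈ S₀, u ≠ x → π u = σ u := by
        intro x hx
        obtain ⟨k, r, rfl, h0, hr, hrj⟩ := hdat x hx
        have hf := hfol k r h0 hr hrj
        have hlast : c (k + 1 + r + (m - r - 1)) = c k := by
          have h3 : k + 1 + r + (m - r - 1) = k + m := by omega
          rw [h3, hp]
        have h1 := hf (m - r - 1)
        rw [Nat.mod_eq_of_lt (by omega), hlast] at h1
        have h2 : (m - r - 1 + 1) % (m - r) = 0 := by
          have h3 : m - r - 1 + 1 = m - r := by omega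
          rw [h3, Nat.mod_self]
        rw [h2, add_zero, hrj] at h1
        refine ⟨h1.2.symm, h1.1, ?_⟩
        -- the walk exhausts `S₀`
        have hle := hcard _ _ (hcl k r h0 hr hrj) (by
          have h1 := hz k r h0 hr hrj
          rw [hcw k r h0 hr]
          rw [hw0] at h1 ⊢
          rw [mul_zero, sub_zero] at h1
          have h2 : (m : ℤ) ≠ 0 := by
            have := hc.1
            omega
          exact le_of_eq ((mul_eq_zero.1 h1).resolve_left h2))
        have hsub : (range (m - r)).image (fun i => c (k + 1 + r + i)) ⊆ S₀ := by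
          intro u hu
          obtain ⟨i, hi', rfl⟩ := Finset.mem_image.1 hu
          have h3 := (hf i).1
          rwa [Nat.mod_eq_of_lt (Finset.mem_range.1 hi')] at h3
        have hcd : ((range (m - r)).image (fun i => c (k + 1 + r + i))).card = m - r := by
          rw [Finset.card_image_of_injOn, Finset.card_range]
          intro i hi' j hj h
          rw [Finset.mem_coe, Finset.mem_range] at hi' hj
          simp only at h
          rcases lt_trichotomy i j with h3 | h3 | h3
          · exact absurd h (hi _ _ (by omega) (by omega))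
          · exact h3
          · exact absurd h.symm (hi _ _ (by omega) (by omega))
        have heq := Finset.eq_of_subset_of_card_le hsub (by rw [hcd]; exact hle)
        intro u hu hux
        rw [← heq] at hu
        obtain ⟨i, hi', rfl⟩ := Finset.mem_image.1 hu
        have hi'' := Finset.mem_range.1 hi'
        have h3 : i ≠ m - r - 1 := by
          rintro rfl
          exact hux hlast
        have h4 := (hf i).2
        rw [Nat.mod_eq_of_lt hi'', Nat.mod_eq_of_lt (by omega)] at h4
        rw [← h4, hσ]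
        rfl
      obtain ⟨p1, p2, p3⟩ := hπ x hx
      obtain ⟨p1', p2', p3'⟩ := hπ x' hx'
      have h1 := p3 x' p2' hxx
      rw [p1'] at h1
      exact hx' h1
    have hSS := huniq S σ hone' (by rw [hSw, hw0])
    subst hSS
    have h1 := hone.2.2.2 σ hσ' hσR
    intro k
    refine ⟨(hS _).2 ⟨k, rfl⟩, ?_⟩
    rw [← h1, hσ]
  · -- the walk is not injective
    unfold Inj at hi
    push Not at hi
    obtain ⟨i, j, hij, hjm, he⟩ := hi
    have hb1 : R (c (i + (j - i - 1))) (c i) := by
      have h2 := hc.2.1 (i + (j - i - 1))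
      have h3 : i + (j - i - 1) + 1 = j := by omega
      rw [h3, ← he] at h2
      exact h2
    have hb2 : R (c (j + (i + m - j - 1))) (c j) := by
      have h2 := hc.2.1 (j + (i + m - j - 1))
      have h3 : j + (i + m - j - 1) + 1 = i + m := by omega
      rw [h3, hp, he] at h2
      exact h2
    have hc1 := cut_cl hc i (j - i) (by omega) hb1
    have hc2 := cut_cl hc j (i + m - j) (by omega) hb2
    have hw1 := hneg _ _ hc1
    have hw2 := hneg _ _ hc2
    rw [cut_ps] at hw1 hw2
    have h3 : i + (j - i) = j := by omega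
    have h4 : j + (i + m - j) = i + m := by omega
    rw [h3] at hw1
    rw [h4, PS_add hp] at hw2
    have f1 := ih (j - i) (by omega) _ hc1 (by rw [cut_ps, h3]; omega)
    have f2 := ih (i + m - j) (by omega) _ hc2 (by rw [cut_ps, h4, PS_add hp]; omega)
    have hall : ∀ k, i ≤ k → k < i + m → c k ∈ S₀ ∧ c (k + 1) = π (c k) := by
      intro k hik hkm
      by_cases hkj : k < j
      · have g := f1 (k - i)
        rw [Nat.mod_eq_of_lt (by omega)] at g
        have h5 : i + (k - i) = k := by omega
        rw [h5] at g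
        refine ⟨g.1, ?_⟩
        by_cases hl : k + 1 = j
        · have h6 : (k - i + 1) % (j - i) = 0 := by
            have h7 : k - i + 1 = j - i := by omega
            rw [h7, Nat.mod_self]
          rw [h6, add_zero] at g
          rw [hl, ← he]
          exact g.2
        · rw [Nat.mod_eq_of_lt (by omega)] at g
          have h6 : i + (k - i + 1) = k + 1 := by omega
          rw [h6] at g
          exact g.2
      · have g := f2 (k - j)
        rw [Nat.mod_eq_of_lt (by omega)] at g
        have h5 : j + (k - j) = k := by omega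
        rw [h5] at g
        refine ⟨g.1, ?_⟩
        by_cases hl : k + 1 = i + m
        · have h6 : (k - j + 1) % (i + m - j) = 0 := by
            have h7 : k - j + 1 = i + m - j := by omega
            rw [h7, Nat.mod_self]
          rw [h6, add_zero] at g
          rw [hl, hp, he]
          exact g.2
        · rw [Nat.mod_eq_of_lt (by omega)] at g
          have h6 : j + (k - j + 1) = k + 1 := by omega
          rw [h6] at g
          exact g.2
    intro k
    obtain ⟨r, hr, hrk⟩ : ∃ r, r < m ∧ (i + r) % m = k % m := by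
      refine ⟨(k + (m - 1) * i) % m, Nat.mod_lt _ hc.1, ?_⟩
      rw [Nat.add_mod_mod]
      have h1 : i + (k + (m - 1) * i) = k + m * i := by
        obtain ⟨m', rfl⟩ : ∃ m', m = m' + 1 := ⟨m - 1, by have := hc.1; omega⟩
        simp only [Nat.add_sub_cancel]
        ring
      rw [h1, Nat.add_mul_mod_self_left]
    have h5 := hall (i + r) (by omega) (by omega)
    have h6 : c (i + r) = c k := by rw [← hmod (i + r), hrk, hmod]
    have h7 : c (i + r + 1) = c (k + 1) := by
      rw [← hmod (i + r + 1), ← hmod (k + 1), Nat.add_mod, hrk, ← Nat.add_mod]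
    rw [h6, h7] at h5
    exact h5

end tools

end Pool.Agent.Helper78K9.GO3
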