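import Pool.Agent.Helper78K9.GO.Main
import Pool.Agent.Helper78K9.GO3.Alg

set_option autoImplicit false

/-!
# Exchanges in the initial graph
-/

namespace Pool.Agent.Helper78K9.GO3

open Function Finset
open Pool.Agent.R655.LI
open Pool.Agent.Helper78K9.GO

section flip
variable {V E : Type} [Fintype E] [DecidableEq V] [DecidableEq E] (T : LGraph V E)
  {v₀ : V} (σ : E ≃ {v : V // v ≠ v₀})

/-- the matrix of the initial graph -/
noncomputable def MM (c : E → Bool) : Matrix E E ℤ := mt σ (T.ini c) T.lab

/-- the exchange matrix -/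
noncomputable def NN (c : E → Bool) (e f : E) : ℤ := (mt σ (T.ter c) T.lab * (MM T σ c)⁻¹) e f

/-- the coordinate functions on the vertices -/
noncomputable def FF (c : E → Bool) (f : E) (v : V) : ℤ :=
  if h : v ≠ v₀ then (MM T σ c)⁻¹ (σ.symm ⟨v, h⟩) f else 0

lemma FF_apply (c : E → Bool) (x z : E → V) (e f : E) :
    (mt σ x z * (MM T σ c)⁻¹) e f = FF T σ c f (x e) - FF T σ c f (z e) := by
  have h0 : FF T σ c f v₀ = 0 := by simp [FF]
  have h1 : ∀ g : E, FF T σ c f (σ g) = (MM T σ c)⁻¹ g f := by
    intro g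
    simp only [FF]
    rw [dif_pos (σ g).2]
    simp
  rw [Matrix.mul_apply]
  simp only [GO.mt, ← h1, sub_mul, Finset.sum_sub_distrib]
  rw [sum_ind σ (FF T σ c f) h0, sum_ind σ (FF T σ c f) h0]

lemma isUnit_det {c : E → Bool} (hc : WW T σ c ≠ 0) : IsUnit (MM T σ c).det := by
  rcases WW_cases T σ c with h | h | h
  · exact absurd h hc
  · have : (MM T σ c).det = 1 := h
    rw [this]
    exact isUnit_one
  · have : (MM T σ c).det = -1 := h
    rw [this]
    exact isUnit_one.neg

lemma FF_ini {c : E → Bool} (hc : WW T σ c ≠ 0) (e f : E) :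
    FF T σ c f (T.ini c e) - FF T σ c f (T.lab e) = if e = f then 1 else 0 := by
  rw [← FF_apply]
  change (MM T σ c * (MM T σ c)⁻¹) e f = _
  rw [Matrix.mul_nonsing_inv _ (isUnit_det T σ hc), Matrix.one_apply]

lemma FF_ter (c : E → Bool) (e f : E) :
    FF T σ c f (T.ter c e) - FF T σ c f (T.lab e) = NN T σ c e f := by
  rw [← FF_apply]
  rfl

/-- `c`, reversed on `S` -/
def flp (c : E → Bool) (S : Finset E) : E → Bool := fun e => if e ∈ S then !c e else c e

omit [Fintype E] [DecidableEq V] in
lemma ini_flp (c : E → Bool) (S : Finset E) (e : E) :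
    T.ini (flp c S) e = if e ∈ S then T.ter c e else T.ini c e := by
  unfold flp LGraph.ini LGraph.ter
  by_cases h : e ∈ S <;> cases h2 : c e <;> simp [h, h2]

omit [Fintype E] [DecidableEq V] in
lemma flp_ne {c : E → Bool} {S : Finset E} (hS : S.Nonempty) : flp c S ≠ c := by
  obtain ⟨e, he⟩ := hS
  intro h
  have h1 := congrFun h e
  simp [flp, he] at h1

/-- the rows of the exchange matrix for `S` -/
noncomputable def BB (c : E → Bool) (S : Finset E) (e f : E) : ℤ :=
  if e ∈ S then NN T σ c e f else if e = f then 1 else 0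

lemma det_flp {c : E → Bool} (hc : WW T σ c ≠ 0) (S : Finset E) :
    WW T σ (flp c S) = (Matrix.of (BB T σ c S)).det * WW T σ c := by
  have h1 : mt σ (T.ini (flp c S)) T.lab * (MM T σ c)⁻¹ = Matrix.of (BB T σ c S) := by
    ext e f
    rw [FF_apply, ini_flp, Matrix.of_apply]
    unfold BB
    split_ifs with h2 h3
    · exact FF_ter T σ c e f
    · rw [FF_ini T σ hc, if_pos h3]
    · rw [FF_ini T σ hc, if_neg h3]
  rw [← h1, Matrix.det_mul, mul_assoc]
  have h2 : (MM T σ c)⁻¹.det * WW T σ c = 1 := by
    change (MM T σ c)⁻¹.det * (MM T σ c).det = 1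
    rw [← Matrix.det_mul, Matrix.nonsing_inv_mul _ (isUnit_det T σ hc), Matrix.det_one]
  rw [h2, mul_one]
  rfl

/-- If there is exactly one permutation along the exchange matrix, the determinant is not zero. -/
lemma det_perm (c : E → Bool) (S : Finset E) (π : Equiv.Perm E)
    (h1 : ∀ x, x ∉ S → π x = x) (h2 : ∀ x ∈ S, NN T σ c (π x) x ≠ 0)
    (h3 : ∀ τ : Equiv.Perm E, (∀ x, x ∉ S → τ x = x) → (∀ x ∈ S, NN T σ c (τ x) x ≠ 0) → τ = π) :
    (Matrix.of (BB T σ c S)).det = Equiv.Perm.sign π * ∏ x, BB T σ c S (π x) x ∧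
      ∏ x, BB T σ c S (π x) x ≠ 0 := by
  constructor
  · rw [Matrix.det_apply']
    simp only [Matrix.of_apply]
    refine Finset.sum_eq_single π ?_ ?_
    · intro τ _ hτ
      by_contra hne
      apply hτ
      have h4 : ∀ x, BB T σ c S (τ x) x ≠ 0 := by
        intro x h0
        apply hne
        rw [Finset.prod_eq_zero (f := fun x => BB T σ c S (τ x) x) (Finset.mem_univ x) h0, mul_zero]
      have h5 : ∀ x, τ x ∉ S → τ x = x := by
        intro x hx
        have h6 := h4 x
        unfold BB at h6
        rw [if_neg hx] at h6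
        by_contra h7
        rw [if_neg h7] at h6
        exact h6 rfl
      have h6 : ∀ x, x ∉ S → τ x = x := by
        intro x hx
        have h7 := h5 (τ.symm x) (by rw [Equiv.apply_symm_apply]; exact hx)
        rw [Equiv.apply_symm_apply] at h7
        conv_lhs => rw [h7]
        rw [Equiv.apply_symm_apply]
      refine h3 τ h6 ?_
      intro x hx
      have h7 : τ x ∈ S := by
        by_contra h8
        rw [h5 x h8] at h8
        exact h8 hx
      have h8 := h4 x
      unfold BB at h8
      rwa [if_pos h7] at h8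
    · intro h
      exact absurd (Finset.mem_univ _) h
  · refine Finset.prod_ne_zero_iff.2 fun x _ => ?_
    unfold BB
    by_cases hx : x ∈ S
    · have h4 : π x ∈ S := by
        by_contra h5
        have h6 := h1 _ h5
        have h7 := π.injective h6
        rw [h7] at h5
        exact h5 hx
      rw [if_pos h4]
      exact h2 x hx
    · rw [h1 x hx, if_neg hx, if_pos rfl]
      exact one_ne_zero

end flip

section ham
variable {E : Type} [Fintype E] [DecidableEq E]

/-- the weights: `1`, if the orientations agree, `-1` otherwise -/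
def wt (o c : E → Bool) (e : E) : ℤ := if c e = o e then 1 else -1

lemma ham_flp (o c : E → Bool) (S : Finset E) :
    (hammingDist o (flp c S) : ℤ) = hammingDist o c + ∑ e ∈ S, wt o c e := by
  have h1 : ∀ c' : E → Bool, (hammingDist o c' : ℤ) = ∑ e, if o e ≠ c' e then 1 else 0 := by
    intro c'
    unfold hammingDist
    rw [Finset.card_filter]
    push_cast
    rfl
  have h2 : ∑ e ∈ S, wt o c e = ∑ e, if e ∈ S then wt o c e else 0 := by
    rw [Finset.sum_ite_mem, Finset.univ_inter]
  rw [h1, h1, h2, ← Finset.sum_add_distrib]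
  refine Finset.sum_congr rfl fun e _ => ?_
  unfold flp wt
  by_cases h : e ∈ S <;> cases h3 : c e <;> cases h4 : o e <;> simp [h]

end ham

section gen
variable {V E : Type} [Finite V] [Fintype E] [DecidableEq V] [DecidableEq E] (T : LGraph V E)
  {v₀ : V} (σ : E ≃ {v : V // v ≠ v₀}) (o c : E → Bool)
  {K' : Cx} (i : Sub K' (T.cx o)) (a' l' b' : K'.R → K'.V)

open Classical in
/-- the diagonal coefficients -/
noncomputable def al (j : K'.R) : MonoidAlgebra ℤ K'.Pi :=
  if c (i.c j) = o (i.c j) then og K' (a' j) - 1 else -(og K' (l' j) * (og K' (b' j) - 1))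

open Classical in
/-- the other coefficients -/
noncomputable def be (j : K'.R) : MonoidAlgebra ℤ K'.Pi :=
  if c (i.c j) = o (i.c j) then -(og K' (l' j) * (og K' (b' j) - 1)) else og K' (a' j) - 1

omit [Fintype E] [DecidableEq V] [DecidableEq E] in
include i in
lemma finite_V : Finite K'.V := by
  have h1 : Finite (T.cx o).V := ‹Finite V›
  exact Finite.of_injective i.v i.v.injective

lemma aux_ring {R : Type} [Ring R] (z X Y : R) (p q : ℤ) :
    z * (p • X - q • Y) = p • (z * X) + q • (z * -Y) := by
  rw [mul_sub, mul_smul_comm, mul_smul_comm, mul_neg, smul_neg, sub_eq_add_neg]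

/-- The equations with the exchange matrix. -/
theorem eqs (hc : WW T σ c ≠ 0) (h1 : ∀ j, K'.r j = wirt (a' j) (l' j) (b' j))
    (h2 : ∀ j, i.v (a' j) = T.ini o (i.c j) ∧ i.v (l' j) = T.lab (i.c j) ∧
      i.v (b' j) = T.ter o (i.c j))
    (z : K'.R →₀ MonoidAlgebra ℤ K'.Pi)
    (hz : Finsupp.linearCombination (MonoidAlgebra ℤ K'.Pi) (fun j => fox K' (K'.r j)) z = 0)
    (j₀ : K'.R) :
    z j₀ * al T o c i a' l' b' j₀ +
      ∑ j ∈ z.support, NN T σ c (i.c j) (i.c j₀) • (z j * be T o c i a' l' b' j) = 0 := by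
  have := finite_V T o i
  let ee : K'.R → E := fun j => i.c j
  have hee : Injective ee := fun x y h => i.c.injective h
  let F : K'.V → ℤ := fun v => FF T σ c (ee j₀) (i.v v)
  have h3 := star K' a' l' b' h1 z hz F
  have h4 : ∑ j ∈ z.support, (if ee j = ee j₀ then (1 : ℤ) else 0) •
      (z j * al T o c i a' l' b' j) = z j₀ * al T o c i a' l' b' j₀ := by
    by_cases h5 : j₀ ∈ z.support
    · rw [Finset.sum_eq_single j₀]
      · rw [if_pos rfl, one_smul]
      · intro j _ hj
        rw [if_neg, zero_smul]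
        intro h6
        exact hj (hee h6)
      · intro h6
        exact absurd h5 h6
    · rw [Finset.sum_eq_zero]
      · rw [Finsupp.notMem_support_iff.1 h5, zero_mul]
      · intro j hj
        rw [if_neg, zero_smul]
        intro h6
        rw [hee h6] at hj
        exact h5 hj
  rw [← h4, ← Finset.sum_add_distrib, ← h3]
  refine Finset.sum_congr rfl fun j _ => ?_
  obtain ⟨ha, hl, hb⟩ := h2 j
  by_cases h : c (i.c j) = o (i.c j)
  · have e1 : T.ini o (i.c j) = T.ini c (i.c j) := by
      unfold LGraph.ini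
      rw [h]
    have e2 : T.ter o (i.c j) = T.ter c (i.c j) := by
      unfold LGraph.ter
      rw [h]
    have f1 : F (a' j) - F (l' j) = if ee j = ee j₀ then (1 : ℤ) else 0 := by
      simp only [F]
      rw [ha, hl, e1]
      exact FF_ini T σ hc (ee j) (ee j₀)
    have f2 : F (b' j) - F (l' j) = NN T σ c (ee j) (ee j₀) := by
      simp only [F]
      rw [hb, hl, e2]
      exact FF_ter T σ c (ee j) (ee j₀)
    rw [f1, f2, aux_ring]
    simp only [al, be]
    rw [if_pos h, if_pos h]
  · have h' : o (i.c j) = !c (i.c j) := by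
      cases h5 : c (i.c j) <;> cases h6 : o (i.c j) <;> simp_all
    have e1 : T.ini o (i.c j) = T.ter c (i.c j) := by
      unfold LGraph.ini LGraph.ter
      rw [h']
      cases c (i.c j) <;> rfl
    have e2 : T.ter o (i.c j) = T.ini c (i.c j) := by
      unfold LGraph.ini LGraph.ter
      rw [h']
      cases c (i.c j) <;> rfl
    have f1 : F (a' j) - F (l' j) = NN T σ c (ee j) (ee j₀) := by
      simp only [F]
      rw [ha, hl, e1]
      exact FF_ter T σ c (ee j) (ee j₀)
    have f2 : F (b' j) - F (l' j) = if ee j = ee j₀ then (1 : ℤ) else 0 := by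
      simp only [F]
      rw [hb, hl, e2]
      exact FF_ini T σ hc (ee j) (ee j₀)
    have f3 : z j * (NN T σ c (ee j) (ee j₀) • (og K' (a' j) - 1) -
        (if ee j = ee j₀ then (1 : ℤ) else 0) • (og K' (l' j) * (og K' (b' j) - 1))) =
        (if ee j = ee j₀ then (1 : ℤ) else 0) • (z j * -(og K' (l' j) * (og K' (b' j) - 1))) +
        NN T σ c (ee j) (ee j₀) • (z j * (og K' (a' j) - 1)) := by
      rw [aux_ring, add_comm]
    rw [f1, f2, f3]
    simp only [al, be]
    rw [if_neg h, if_neg h]

end gen

end Pool.Agent.Helper78K9.GO3
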