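import Pool.Agent.Helper78K9.GO3.Near

set_option autoImplicit false

/-!
# The nearest initial tree
-/

namespace Pool.Agent.Helper78K9.GO3

open Function Finset
open Pool.Agent.R655.LI
open Pool.Agent.Helper78K9.GO

/-- The initial graph of the orientation `c` (with the edges `{ini c e, lab e}`) is a tree. -/
def IniTree {V E : Type} (T : LGraph V E) (c : E → Bool) : Prop :=
  (⟨T.ini c, T.lab, T.lab⟩ : LGraph V E).IsTree

section det
variable {V E : Type} [Finite V] [Fintype E] [DecidableEq V] [DecidableEq E] (T : LGraph V E)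
  {v₀ : V} (σ : E ≃ {v : V // v ≠ v₀})

omit [DecidableEq E] in
/-- A graph with nonsingular matrix is a tree. -/
theorem tree_of_det [DecidableEq E] (h : (GO.mt σ T.a T.b).det ≠ 0) : T.IsTree := by
  classical
  refine ⟨?_, ?_⟩
  · set Γ := SimpleGraph.fromEdgeSet (Set.range fun e => s(T.a e, T.b e)) with hΓ
    have hreach : ∀ v, Γ.Reachable v₀ v := by
      by_contra hne
      push Not at hne
      obtain ⟨v, hv⟩ := hne
      apply h
      let Y : V → ℤ := fun u => if Γ.Reachable v₀ u then 0 else 1
      have hY0 : Y v₀ = 0 := if_pos (SimpleGraph.Reachable.refl _)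
      have hv0 : v ≠ v₀ := by
        rintro rfl
        exact hv (SimpleGraph.Reachable.refl _)
      refine Matrix.exists_mulVec_eq_zero_iff.1 ⟨fun f => Y (σ f), ?_, ?_⟩
      · intro h0
        have h1 := congrFun h0 (σ.symm ⟨v, hv0⟩)
        simp only [Equiv.apply_symm_apply, Pi.zero_apply, Y] at h1
        rw [if_neg hv] at h1
        exact one_ne_zero h1
      · funext e
        simp only [Matrix.mulVec, dotProduct, GO.mt, Pi.zero_apply, sub_mul,
          Finset.sum_sub_distrib]
        rw [sum_ind σ Y hY0, sum_ind σ Y hY0]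
        have h1 : Γ.Reachable v₀ (T.a e) ↔ Γ.Reachable v₀ (T.b e) := by
          by_cases hab : T.a e = T.b e
          · rw [hab]
          · have h2 : Γ.Adj (T.a e) (T.b e) := by
              rw [hΓ, SimpleGraph.fromEdgeSet_adj]
              exact ⟨⟨e, rfl⟩, hab⟩
            exact ⟨fun h3 => h3.trans h2.reachable, fun h3 => h3.trans h2.symm.reachable⟩
        simp only [Y, h1, sub_self]
    haveI : Nonempty V := ⟨v₀⟩
    exact { preconnected := fun u v => (hreach u).symm.trans (hreach v) }
  · have := Fintype.ofFinite V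
    have h1 := Fintype.card_congr σ
    rw [Fintype.card_subtype_compl, Fintype.card_subtype_eq] at h1
    have h2 : 0 < Fintype.card V := Fintype.card_pos_iff.2 ⟨v₀⟩
    rw [Nat.card_eq_fintype_card, Nat.card_eq_fintype_card]
    omega

theorem iniTree_iff (c : E → Bool) : IniTree T c ↔ WW T σ c ≠ 0 :=
  ⟨fun h => tree_det (⟨T.ini c, T.lab, T.lab⟩ : LGraph V E) σ h,
    fun h => tree_of_det (⟨T.ini c, T.lab, T.lab⟩ : LGraph V E) σ h⟩

end det

section main
variable {V E : Type} [Finite V] [Fintype E] [DecidableEq V] [DecidableEq E] (T : LGraph V E)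

omit [DecidableEq V] in
theorem main (hT : T.IsTree) (hc : T.Compressed) (o c : E → Bool) (hi : IniTree T c)
    (h : (∀ c', IniTree T c' → c' ≠ c → hammingDist o c < hammingDist o c') ∨
      (∀ c', IniTree T c' → c' ≠ c → hammingDist o c' < hammingDist o c)) :
    AllAsph (T.cx o) := by
  classical
  obtain ⟨v₀⟩ := hT.1.nonempty
  obtain ⟨σ⟩ := exists_equiv T hT v₀
  have hi' := (iniTree_iff T σ c).1 hi
  rcases h with h | h
  · refine near hT hc hi' fun c' h1 h2 => h c' ((iniTree_iff T σ c').2 h1) h2
  · refine far hT hc hi' fun c' h1 h2 => h c' ((iniTree_iff T σ c').2 h1) h2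

end main

end Pool.Agent.Helper78K9.GO3
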