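import Pool.Agent.Helper78K9.GO3.Flip

set_option autoImplicit false

/-!
# Orientations with exactly one nearest or exactly one farthest codeword
-/

namespace Pool.Agent.Helper78K9.GO3

open Function Finset
open Pool.Agent.R655.LI
open Pool.Agent.Helper78K9.GO

section data
variable {V E : Type} (T : LGraph V E) (o c : E → Bool)
  {K' : Cx} (i : Sub K' (T.cx o)) (a' l' b' : K'.R → K'.V)
  (h1 : ∀ j, K'.r j = wirt (a' j) (l' j) (b' j))

/-- the height or its inverse -/
noncomputable def hh (far : Bool) : K'.Pi →* Multiplicative ℤ :=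
  if far then (ht K' a' l' b' h1)⁻¹ else ht K' a' l' b' h1

/-- the leading group elements -/
noncomputable def yy (far : Bool) (j : K'.R) : K'.Pi :=
  match far, decide (c (i.c j) = o (i.c j)) with
  | false, true => 1
  | false, false => PresentedGroup.of (l' j)
  | true, true => PresentedGroup.of (a' j)
  | true, false => PresentedGroup.of (l' j) * PresentedGroup.of (b' j)

/-- the leading signs -/
def ss (far : Bool) (j : K'.R) : ℤ :=
  match far, decide (c (i.c j) = o (i.c j)) with
  | false, true => -1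
  | false, false => 1
  | true, true => 1
  | true, false => -1

/-- the lower bounds -/
def qq (far : Bool) (j : K'.R) : ℤ :=
  match far, decide (c (i.c j) = o (i.c j)) with
  | false, true => 1
  | false, false => 0
  | true, true => -2
  | true, false => -1

/-- the weights -/
def ww (far : Bool) (e : E) : ℤ := if far then -wt o c e else wt o c e

lemma ss_ne (far : Bool) (j : K'.R) : ss T o c i far j ≠ 0 := by
  unfold ss
  split <;> norm_num

lemma ht_hh (far : Bool) (v : K'.V) : (hh a' l' b' h1 far (PresentedGroup.of v)).toAdd =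
    if far then -1 else 1 := by
  unfold hh
  cases far
  · simp only [Bool.false_eq_true, if_false]
    rw [ht_of]
    rfl
  · simp only [if_true]
    rw [MonoidHom.inv_apply, ht_of]
    rfl

lemma qq_yy (far : Bool) (j : K'.R) :
    qq T o c i far j - (hh a' l' b' h1 far (yy T o c i a' l' b' far j)).toAdd =
      ww o c far (i.c j) := by
  unfold qq yy ww wt
  by_cases h : c (i.c j) = o (i.c j)
  · cases far
    · simp [h]
    · simp only [h, decide_true, if_true]
      rw [ht_hh]
      norm_num
  · cases far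
    · simp only [h, decide_false, Bool.false_eq_true, if_false]
      rw [ht_hh]
      norm_num
    · simp only [h, decide_false, if_true, if_false]
      rw [map_mul, toAdd_mul, ht_hh, ht_hh]
      norm_num

lemma coeff_of_ne {G : Type} [Group G] {x g : G} {s : ℤ}
    (h : (MonoidAlgebra.single x s : MonoidAlgebra ℤ G).coeff g ≠ 0) : g = x := by
  classical
  rw [MonoidAlgebra.coeff_single, Finsupp.single_apply] at h
  by_contra h2
  rw [if_neg (Ne.symm h2)] at h
  exact h rfl

lemma coeff_add_ne {G : Type} [Group G] {x y : MonoidAlgebra ℤ G} {g : G}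
    (h : (x + y).coeff g ≠ 0) : x.coeff g ≠ 0 ∨ y.coeff g ≠ 0 := by
  by_contra hne
  push Not at hne
  apply h
  rw [MonoidAlgebra.coeff_add, Finsupp.add_apply, hne.1, hne.2, add_zero]

lemma og_single (x : K'.V) : og K' x = MonoidAlgebra.single (PresentedGroup.of x) 1 := rfl

lemma one_single : (1 : MonoidAlgebra ℤ K'.Pi) = MonoidAlgebra.single 1 1 := rfl

lemma og_mul (x y : K'.V) : og K' x * og K' y =
    MonoidAlgebra.single (PresentedGroup.of x * PresentedGroup.of y) 1 := by
  rw [og_single, og_single, MonoidAlgebra.single_mul_single, one_mul]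

lemma al_same {j : K'.R} (h : c (i.c j) = o (i.c j)) : al T o c i a' l' b' j =
    MonoidAlgebra.single (PresentedGroup.of (a' j)) 1 - MonoidAlgebra.single 1 1 := by
  unfold al
  rw [if_pos h]
  rfl

lemma al_diff {j : K'.R} (h : ¬ c (i.c j) = o (i.c j)) : al T o c i a' l' b' j =
    MonoidAlgebra.single (PresentedGroup.of (l' j)) 1 -
      MonoidAlgebra.single (PresentedGroup.of (l' j) * PresentedGroup.of (b' j)) 1 := by
  unfold al
  rw [if_neg h, mul_sub, mul_one, neg_sub, og_mul]
  rfl

lemma be_same {j : K'.R} (h : c (i.c j) = o (i.c j)) : be T o c i a' l' b' j =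
    MonoidAlgebra.single (PresentedGroup.of (l' j)) 1 -
      MonoidAlgebra.single (PresentedGroup.of (l' j) * PresentedGroup.of (b' j)) 1 := by
  unfold be
  rw [if_pos h, mul_sub, mul_one, neg_sub, og_mul]
  rfl

lemma be_diff {j : K'.R} (h : ¬ c (i.c j) = o (i.c j)) : be T o c i a' l' b' j =
    MonoidAlgebra.single (PresentedGroup.of (a' j)) 1 - MonoidAlgebra.single 1 1 := by
  unfold be
  rw [if_neg h]
  rfl

lemma al_lead (far : Bool) (j : K'.R) (g : K'.Pi)
    (hg : (al T o c i a' l' b' j - MonoidAlgebra.single (yy T o c i a' l' b' far j)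
      (ss T o c i far j)).coeff g ≠ 0) :
    (hh a' l' b' h1 far (yy T o c i a' l' b' far j)).toAdd < (hh a' l' b' h1 far g).toAdd := by
  by_cases h : c (i.c j) = o (i.c j)
  · rw [al_same T o c i a' l' b' h] at hg
    cases far
    · simp only [yy, ss, h, decide_true] at hg ⊢
      rw [MonoidAlgebra.single_neg, sub_neg_eq_add, sub_add_cancel] at hg
      rw [coeff_of_ne hg, ht_hh, map_one]
      norm_num
    · simp only [yy, ss, h, decide_true] at hg ⊢
      rw [sub_sub_cancel_left, ← MonoidAlgebra.single_neg] at hg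
      rw [coeff_of_ne hg, ht_hh, map_one]
      norm_num
  · rw [al_diff T o c i a' l' b' h] at hg
    cases far
    · simp only [yy, ss, h, decide_false] at hg ⊢
      rw [sub_sub_cancel_left, ← MonoidAlgebra.single_neg] at hg
      rw [coeff_of_ne hg, map_mul, toAdd_mul, ht_hh, ht_hh]
      norm_num
    · simp only [yy, ss, h, decide_false] at hg ⊢
      rw [MonoidAlgebra.single_neg, sub_neg_eq_add, sub_add_cancel] at hg
      rw [coeff_of_ne hg, map_mul, toAdd_mul, ht_hh, ht_hh]
      norm_num

lemma coeff_sub_ne {G : Type} [Group G] {x y : MonoidAlgebra ℤ G} {g : G}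
    (h : (x - y).coeff g ≠ 0) : x.coeff g ≠ 0 ∨ y.coeff g ≠ 0 := by
  by_contra hne
  push Not at hne
  apply h
  rw [MonoidAlgebra.coeff_sub, Finsupp.sub_apply, hne.1, hne.2, sub_zero]

lemma be_low (far : Bool) (j : K'.R) (g : K'.Pi) (hg : (be T o c i a' l' b' j).coeff g ≠ 0) :
    qq T o c i far j ≤ (hh a' l' b' h1 far g).toAdd := by
  by_cases h : c (i.c j) = o (i.c j)
  · rw [be_same T o c i a' l' b' h] at hg
    rcases coeff_sub_ne hg with h3 | h3 <;> rw [coeff_of_ne h3] <;> cases far <;>
      simp only [qq, h, decide_true]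
    · rw [ht_hh]; norm_num
    · rw [ht_hh]; norm_num
    · rw [map_mul, toAdd_mul, ht_hh, ht_hh]; norm_num
    · rw [map_mul, toAdd_mul, ht_hh, ht_hh]; norm_num
  · rw [be_diff T o c i a' l' b' h] at hg
    rcases coeff_sub_ne hg with h3 | h3 <;> rw [coeff_of_ne h3] <;> cases far <;>
      simp only [qq, h, decide_false]
    · rw [ht_hh]; norm_num
    · rw [ht_hh]; norm_num
    · rw [map_one]; norm_num
    · rw [map_one]; norm_num

end data

section near
variable {V E : Type} [Finite V] [Fintype E] [DecidableEq V] [DecidableEq E] (T : LGraph V E)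
  {v₀ : V} (σ : E ≃ {v : V // v ≠ v₀}) (o c : E → Bool)

/-- A closed walk of nonpositive weight gives an exchange. -/
theorem exchange (hc : WW T σ c ≠ 0) (far : Bool) {m : ℕ} {e : ℕ → E}
    (he : CW (fun x x' => NN T σ c x' x ≠ 0) (ww o c far) m e) :
    ∃ S : Finset E, S.Nonempty ∧ ∑ e ∈ S, ww o c far e ≤ 0 ∧ WW T σ (flp c S) ≠ 0 := by
  obtain ⟨S, π, h1, h2, h3, h4, h5⟩ := exists_perm he
  refine ⟨S, h1, h2, ?_⟩
  obtain ⟨h6, h7⟩ := det_perm T σ c S π h3 h4 h5
  rw [det_flp T σ hc, h6]
  refine mul_ne_zero (mul_ne_zero ?_ h7) hc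
  rcases Int.units_eq_one_or (Equiv.Perm.sign π) with h | h <;> rw [h] <;> norm_num

variable {T σ o c}

/-- If a subcomplex is not aspherical, there is an exchange of nonpositive weight. -/
theorem not_asph (hT : T.IsTree) (hcp : T.Compressed) (hc : WW T σ c ≠ 0) (far : Bool)
    (h : ¬ AllAsph (T.cx o)) :
    ∃ S : Finset E, S.Nonempty ∧ ∑ e ∈ S, ww o c far e ≤ 0 ∧ WW T σ (flp c S) ≠ 0 := by
  unfold AllAsph at h
  push Not at h
  obtain ⟨K', i, hK⟩ := h
  obtain ⟨a', l', b', h1, h2⟩ := exists_sub i (T.ini o) T.lab (T.ter o) (fun _ => rfl) (by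
    intro e
    exact ⟨(LGraph.ne_ends hcp o e).1, (LGraph.ne_ends hcp o e).2,
      ne_of_tree (ori T o) (ori_tree T hT o) e⟩)
  unfold Asph at hK
  rw [injective_iff_map_eq_zero] at hK
  push Not at hK
  obtain ⟨z, hz, hne⟩ := hK
  obtain ⟨m, e, he⟩ := core (hh a' l' b' h1 far)
    (fun j j' => NN T σ c (i.c j) (i.c j')) (al T o c i a' l' b') (be T o c i a' l' b')
    (yy T o c i a' l' b' far) (ss T o c i far) (qq T o c i far)
    (ss_ne T o c i far) (al_lead T o c i a' l' b' h1 far) (be_low T o c i a' l' b' h1 far) z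
    (eqs T σ o c i a' l' b' hc h1 h2 z hz) hne
  refine exchange T σ o c hc far (m := m) (e := fun k => i.c (e k)) ?_
  obtain ⟨he0, he1, he2, he3⟩ := he
  refine ⟨he0, he1, fun k => ?_, ?_⟩
  · simp only
    rw [he2]
  · refine le_trans (le_of_eq ?_) he3
    refine Finset.sum_congr rfl fun k _ => ?_
    exact (qq_yy T o c i a' l' b' h1 far (e k)).symm

theorem near (hT : T.IsTree) (hcp : T.Compressed) (hc : WW T σ c ≠ 0)
    (hn : ∀ c', WW T σ c' ≠ 0 → c' ≠ c → hammingDist o c < hammingDist o c') :
    AllAsph (T.cx o) := by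
  by_contra h
  obtain ⟨S, h1, h2, h3⟩ := not_asph hT hcp hc false h
  have h4 := hn _ h3 (flp_ne h1)
  have h5 := ham_flp o c S
  simp only [ww, Bool.false_eq_true, if_false] at h2
  omega

theorem far (hT : T.IsTree) (hcp : T.Compressed) (hc : WW T σ c ≠ 0)
    (hn : ∀ c', WW T σ c' ≠ 0 → c' ≠ c → hammingDist o c' < hammingDist o c) :
    AllAsph (T.cx o) := by
  by_contra h
  obtain ⟨S, h1, h2, h3⟩ := not_asph hT hcp hc true h
  have h4 := hn _ h3 (flp_ne h1)
  have h5 := ham_flp o c S
  simp only [ww, if_true, Finset.sum_neg_distrib] at h2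
  omega

end near

end Pool.Agent.Helper78K9.GO3
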